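import Mathlib

set_option autoImplicit false

/-!
# Linear systems of plane curves with assigned multiplicities

`sys d h m p` is the vector space of all forms `f` of degree `d` in three variables over the complex
numbers such that, for every `i`, the polynomial `f (X + p i)` has no term of degree less than
`m i`, that is, the curve `f = 0` has multiplicity at least `m i` at the point `p i` of the plane
(for `p i` not the zero vector). Its projectivisation is the linear system of degree `d` with
multiplicities `m i` at the points `p i`.
-/

namespace Pool.Agent.helper89.Segre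

open MvPolynomial

/-- The space of forms of degree `d` in three variables having multiplicity at least `m i` at the
point `p i`. -/
noncomputable def sys (d h : ℕ) (m : Fin h → ℕ) (p : Fin h → Fin 3 → ℂ) :
    Submodule ℂ (MvPolynomial (Fin 3) ℂ) where
  carrier := {f | f ∈ homogeneousSubmodule (Fin 3) ℂ d ∧ ∀ i, ∀ n : Fin 3 →₀ ℕ,
    ∑ j, n j < m i → coeff n (aeval (R := ℂ) (fun j : Fin 3 => (X j + C (p i j) :
      MvPolynomial (Fin 3) ℂ)) f) = 0}
  add_mem' := by
    rintro f g ⟨hf1, hf2⟩ ⟨hg1, hg2⟩
    refine ⟨Submodule.add_mem _ hf1 hg1, fun i n hn => ?_⟩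
    rw [map_add, coeff_add, hf2 i n hn, hg2 i n hn, add_zero]
  zero_mem' := ⟨Submodule.zero_mem _, fun i n hn => by rw [map_zero, coeff_zero]⟩
  smul_mem' := by
    rintro c f ⟨hf1, hf2⟩
    refine ⟨Submodule.smul_mem _ c hf1, fun i n hn => ?_⟩
    rw [map_smul, coeff_smul, hf2 i n hn, smul_zero]

end Pool.Agent.helper89.Segre
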