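import Mathlib

set_option autoImplicit false

/-!
# Bivariate polynomials of low total degree vanishing on rows of points

A polynomial in two variables is seen as an element of `K[X][Y]`; the outer variable is the row
variable.
-/

namespace Pool.Agent.helper89.Segre

open Polynomial

variable {K : Type*} [Field K]

/-- total degree less than `n` (outer variable `Y`, inner variable `X`). -/
def LowDeg (n : ℕ) (P : K[X][X]) : Prop :=
  ∀ j, (P.coeff j).degree < ((n - j : ℕ) : WithBot ℕ)

lemma lowDeg_zero_iff {P : K[X][X]} : LowDeg 0 P ↔ P = 0 := by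
  constructor
  · intro h
    ext j : 1
    have := h j
    simp only [Nat.zero_sub, Nat.cast_zero] at this
    rw [coeff_zero]
    rw [← degree_eq_bot]
    exact Nat.WithBot.lt_zero_iff.mp this
  · rintro rfl j
    simp

/-- The restriction to a row has degree less than `n`. -/
lemma LowDeg.degree_eval {n : ℕ} {P : K[X][X]} (h : LowDeg n P) (r : K) :
    (P.eval (C r)).degree < (n : WithBot ℕ) := by
  rw [eval_eq_sum, Polynomial.sum]
  rcases Nat.eq_zero_or_pos n with rfl | hn
  · rw [lowDeg_zero_iff.mp h]; simp
  · apply lt_of_le_of_lt (Polynomial.degree_sum_le _ _)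
    rw [Finset.sup_lt_iff (by exact_mod_cast WithBot.bot_lt_coe n)]
    intro j _
    calc (P.coeff j * C r ^ j).degree ≤ (P.coeff j).degree + (C r ^ j).degree := degree_mul_le _ _
      _ ≤ (P.coeff j).degree + 0 := by
          gcongr
          rw [← C_pow]; exact degree_C_le
      _ = (P.coeff j).degree := by simp
      _ < ((n - j : ℕ) : WithBot ℕ) := h j
      _ ≤ (n : WithBot ℕ) := by exact_mod_cast Nat.sub_le n j

/-- Division by the equation of a row. -/
lemma LowDeg.exists_factor {n : ℕ} {P : K[X][X]} (h : LowDeg n P) {r : K}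
    (h0 : P.eval (C r) = 0) :
    ∃ Q : K[X][X], P = (X - C (C r)) * Q ∧ LowDeg (n - 1) Q := by
  refine ⟨P /ₘ (X - C (C r)), ?_, ?_⟩
  · exact (mul_divByMonic_eq_iff_isRoot.mpr h0).symm
  · intro j
    rw [coeff_divByMonic_X_sub_C]
    rcases Nat.eq_zero_or_pos (n - 1 - j) with hz | hpos
    · rw [hz]
      have : ∑ i ∈ Finset.Icc (j + 1) P.natDegree, C r ^ (i - (j + 1)) * P.coeff i = 0 := by
        apply Finset.sum_eq_zero
        intro i hi
        have hi' := (Finset.mem_Icc.mp hi).1
        have := h i
        have hni : n - i = 0 := by omega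
        rw [hni, Nat.cast_zero, Nat.WithBot.lt_zero_iff, degree_eq_bot] at this
        rw [this, mul_zero]
      rw [this]; simp
    · apply lt_of_le_of_lt (Polynomial.degree_sum_le _ _)
      rw [Finset.sup_lt_iff (by exact_mod_cast WithBot.bot_lt_coe _)]
      intro i hi
      have hi' := (Finset.mem_Icc.mp hi).1
      calc (C r ^ (i - (j + 1)) * P.coeff i).degree
          ≤ (C r ^ (i - (j + 1))).degree + (P.coeff i).degree := degree_mul_le _ _
        _ ≤ 0 + (P.coeff i).degree := by
            gcongr
            rw [← C_pow]; exact degree_C_le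
        _ = (P.coeff i).degree := by simp
        _ < ((n - i : ℕ) : WithBot ℕ) := h i
        _ ≤ ((n - 1 - j : ℕ) : WithBot ℕ) := by
            have : n - i ≤ n - 1 - j := by omega
            exact_mod_cast this

lemma LowDeg.eval_eq_zero_of_points {n : ℕ} {P : K[X][X]} (h : LowDeg n P) (r : K)
    (S : Finset K) (hS : n ≤ S.card) (hv : ∀ s ∈ S, (P.eval (C r)).eval s = 0) :
    P.eval (C r) = 0 := by
  apply Polynomial.eq_zero_of_degree_lt_of_eval_finset_eq_zero (s := S)
  · exact lt_of_lt_of_le (h.degree_eval r) (by exact_mod_cast hS)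
  · exact hv

/-- Peeling: rows `r k` (`k0 < k ≤ n`) carry at least `k` zeros, the row `ρ` carries at least `k0`
zeros. Then the polynomial vanishes on the whole row `ρ`. -/
lemma LowDeg.peel (r : ℕ → K) (S : ℕ → Finset K) (k0 : ℕ) (ρ : K) (S0 : Finset K)
    (hS0 : k0 ≤ S0.card) :
    ∀ (n : ℕ) (P : K[X][X]), k0 ≤ n → LowDeg n P →
    (∀ k, k0 < k → k ≤ n → k ≤ (S k).card) →
    (∀ k, k0 < k → k ≤ n → r k ≠ ρ) →
    (∀ k l, k0 < k → k < l → l ≤ n → r k ≠ r l) →
    (∀ k, k0 < k → k ≤ n → ∀ s ∈ S k, (P.eval (C (r k))).eval s = 0) →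
    (∀ s ∈ S0, (P.eval (C ρ)).eval s = 0) →
    P.eval (C ρ) = 0 := by
  intro n
  induction n with
  | zero =>
    intro P hk hP _ _ _ _ _
    rw [lowDeg_zero_iff.mp hP]; simp
  | succ n ih =>
    intro P hk hP hcard hne hinj hv h0
    rcases Nat.lt_or_ge k0 (n + 1) with hlt | hge
    · have h1 : P.eval (C (r (n + 1))) = 0 :=
        hP.eval_eq_zero_of_points _ (S (n + 1)) (hcard _ hlt le_rfl) (hv _ hlt le_rfl)
      obtain ⟨Q, hPQ, hQ⟩ := hP.exists_factor h1
      simp only [Nat.add_sub_cancel] at hQ
      have hQ0 : Q.eval (C ρ) = 0 := by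
        apply ih Q (by omega) hQ
        · intro k hk1 hk2; exact hcard k hk1 (by omega)
        · intro k hk1 hk2; exact hne k hk1 (by omega)
        · intro k l hk1 hk2 hk3; exact hinj k l hk1 hk2 (by omega)
        · intro k hk1 hk2 s hs
          have := hv k hk1 (by omega) s hs
          rw [hPQ] at this
          simp only [eval_mul, eval_sub, eval_X, eval_C, mul_eq_zero] at this
          rcases this with h | h
          · exfalso
            exact hinj k (n + 1) hk1 (by omega) le_rfl (sub_eq_zero.mp h)
          · exact h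
        · intro s hs
          have := h0 s hs
          rw [hPQ] at this
          simp only [eval_mul, eval_sub, eval_X, eval_C, mul_eq_zero] at this
          rcases this with h | h
          · exfalso
            exact hne (n + 1) hlt le_rfl (sub_eq_zero.mp h).symm
          · exact h
      rw [hPQ, eval_mul, hQ0, mul_zero]
    · have : k0 = n + 1 := by omega
      subst this
      exact hP.eval_eq_zero_of_points _ S0 hS0 h0

/-- Unisolvence: if the row `r k` carries at least `k` zeros for `1 ≤ k ≤ n`, then a polynomial of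
total degree less than `n` vanishing at all of them is zero. -/
lemma LowDeg.eq_zero (r : ℕ → K) (S : ℕ → Finset K) :
    ∀ (n : ℕ) (P : K[X][X]), LowDeg n P →
    (∀ k, 0 < k → k ≤ n → k ≤ (S k).card) →
    (∀ k l, 0 < k → k < l → l ≤ n → r k ≠ r l) →
    (∀ k, 0 < k → k ≤ n → ∀ s ∈ S k, (P.eval (C (r k))).eval s = 0) →
    P = 0 := by
  intro n
  induction n with
  | zero => intro P hP _ _ _; exact lowDeg_zero_iff.mp hP
  | succ n ih =>
    intro P hP hcard hinj hv
    have h1 : P.eval (C (r (n + 1))) = 0 :=
      hP.eval_eq_zero_of_points _ (S (n + 1)) (hcard _ (by omega) le_rfl) (hv _ (by omega) le_rfl)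
    obtain ⟨Q, hPQ, hQ⟩ := hP.exists_factor h1
    simp only [Nat.add_sub_cancel] at hQ
    have : Q = 0 := by
      apply ih Q hQ
      · intro k hk1 hk2; exact hcard k hk1 (by omega)
      · intro k l hk1 hk2 hk3; exact hinj k l hk1 hk2 (by omega)
      · intro k hk1 hk2 s hs
        have := hv k hk1 (by omega) s hs
        rw [hPQ] at this
        simp only [eval_mul, eval_sub, eval_X, eval_C, mul_eq_zero] at this
        rcases this with h | h
        · exfalso
          exact hinj k (n + 1) hk1 (by omega) le_rfl (sub_eq_zero.mp h)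
        · exact h
    rw [hPQ, this, mul_zero]

end Pool.Agent.helper89.Segre
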