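import Mathlib
import Pool.Agent.helper89.Segre.Peel

set_option autoImplicit false

/-!
# Test functions on the lattice and unisolvent sets
-/

namespace Pool.Agent.helper89.Segre

open Polynomial

/-- The set of `(a, b)` with `b < n` and `a < y b`: `n` rows of lengths `y 0, y 1, …`. -/
def box (n : ℕ) (y : ℕ → ℕ) : Finset (ℕ × ℕ) :=
  ((Finset.range n).sigma fun b => Finset.range (y b)).image fun s => (s.2, s.1)

lemma mem_box {n : ℕ} {y : ℕ → ℕ} {e : ℕ × ℕ} : e ∈ box n y ↔ e.2 < n ∧ e.1 < y e.2 := by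
  unfold box
  simp only [Finset.mem_image, Finset.mem_sigma, Finset.mem_range, Sigma.exists]
  constructor
  · rintro ⟨b, a, ⟨h1, h2⟩, rfl⟩
    exact ⟨h1, h2⟩
  · rintro ⟨h1, h2⟩
    exact ⟨e.2, e.1, ⟨h1, h2⟩, rfl⟩

lemma card_box (n : ℕ) (y : ℕ → ℕ) : (box n y).card = ∑ b ∈ Finset.range n, y b := by
  unfold box
  rw [Finset.card_image_of_injective, Finset.card_sigma]
  · simp
  · rintro ⟨a, b⟩ ⟨c, d⟩ h
    simp only [Prod.mk.injEq] at h
    obtain ⟨rfl, rfl⟩ := h
    rfl

/-- index set of the conditions of multiplicity `μ`: pairs `(i, j)` with `i + j < μ`. -/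
def idx (μ : ℕ) : Finset (ℕ × ℕ) := box μ (fun b => μ - b)

lemma mem_idx {μ : ℕ} {e : ℕ × ℕ} : e ∈ idx μ ↔ e.1 + e.2 < μ := by
  unfold idx; rw [mem_box]; omega

lemma sum_range_sub_self (μ : ℕ) : ∑ b ∈ Finset.range μ, (μ - b) = (μ + 1).choose 2 := by
  induction μ with
  | zero => simp
  | succ n ih =>
    rw [Finset.sum_range_succ']
    simp only [Nat.add_sub_add_right, Nat.sub_zero]
    rw [ih, Nat.choose_succ_succ' (n + 1) 1]
    simp [Nat.choose_one_right, Nat.add_comm]

lemma card_idx (μ : ℕ) : (idx μ).card = (μ + 1).choose 2 := by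
  unfold idx; rw [card_box, sum_range_sub_self]

variable {K : Type*} [Field K]

/-- the test function with coefficients `u` -/
def tf (μ : ℕ) (u : ℕ × ℕ → K) (e : ℕ × ℕ) : K :=
  ∑ ij ∈ idx μ, u ij * ((e.1.choose ij.1 : ℕ) : K) * ((e.2.choose ij.2 : ℕ) : K)

/-- If the test function vanishes at all lattice points then its coefficients vanish. -/
lemma coeff_eq_zero_of_tf {μ : ℕ} {u : ℕ × ℕ → K} (h : ∀ e, tf μ u e = 0) :
    ∀ ij ∈ idx μ, u ij = 0 := by
  intro ij
  induction hn : ij.1 + ij.2 using Nat.strong_induction_on generalizing ij with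
  | _ n ih =>
    intro hij
    have h1 := h ij
    unfold tf at h1
    rw [Finset.sum_eq_single ij] at h1
    · simpa using h1
    · intro kl hkl hne
      rcases Nat.lt_or_ge ij.1 kl.1 with h2 | h2
      · rw [Nat.choose_eq_zero_of_lt h2]; simp
      rcases Nat.lt_or_ge ij.2 kl.2 with h3 | h3
      · rw [Nat.choose_eq_zero_of_lt h3]; simp
      · have hlt : kl.1 + kl.2 < n := by
          rcases Nat.lt_or_ge kl.1 ij.1 with h4 | h4
          · omega
          · rcases Nat.lt_or_ge kl.2 ij.2 with h5 | h5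
            · omega
            · exfalso; apply hne; ext <;> omega
        rw [ih _ hlt kl rfl hkl]; simp
    · intro h2; exact absurd hij h2

/-- polynomial giving the test function -/
noncomputable def tp (μ : ℕ) (u : ℕ × ℕ → K) : K[X][X] :=
  ∑ ij ∈ idx μ, C (C (u ij * ((ij.1.factorial : K) * (ij.2.factorial : K))⁻¹)
    * descPochhammer K ij.1) * (descPochhammer K ij.2).map C

lemma LowDeg.sum {ι : Type*} (s : Finset ι) {n : ℕ} (f : ι → K[X][X])
    (h : ∀ i ∈ s, LowDeg n (f i)) : LowDeg n (∑ i ∈ s, f i) := by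
  intro j
  rw [finsetSum_coeff]
  rcases Nat.eq_zero_or_pos (n - j) with hz | hpos
  · have : ∑ b ∈ s, (f b).coeff j = 0 := by
      apply Finset.sum_eq_zero
      intro i hi
      have := h i hi j
      rw [hz, Nat.cast_zero, Nat.WithBot.lt_zero_iff, degree_eq_bot] at this
      exact this
    rw [this, hz]; simp
  · apply lt_of_le_of_lt (Polynomial.degree_sum_le _ _)
    rw [Finset.sup_lt_iff (by exact_mod_cast WithBot.bot_lt_coe _)]
    intro i hi
    exact h i hi j

lemma lowDeg_tp (μ : ℕ) (u : ℕ × ℕ → K) : LowDeg μ (tp μ u) := by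
  apply LowDeg.sum
  intro ij hij j
  rw [mem_idx] at hij
  rw [coeff_C_mul, coeff_map]
  rcases Nat.lt_or_ge ij.2 j with h | h
  · have : (descPochhammer K ij.2).coeff j = 0 := by
      apply coeff_eq_zero_of_natDegree_lt
      rw [descPochhammer_natDegree]; exact h
    rw [this]
    simp only [map_zero, mul_zero, degree_zero]
    exact WithBot.bot_lt_coe _
  · calc (C (u ij * ((ij.1.factorial : K) * (ij.2.factorial : K))⁻¹) * descPochhammer K ij.1
          * C ((descPochhammer K ij.2).coeff j)).degree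
        ≤ (C (u ij * ((ij.1.factorial : K) * (ij.2.factorial : K))⁻¹)
            * descPochhammer K ij.1).degree + (C ((descPochhammer K ij.2).coeff j)).degree :=
          degree_mul_le _ _
      _ ≤ ((C (u ij * ((ij.1.factorial : K) * (ij.2.factorial : K))⁻¹)).degree
            + (descPochhammer K ij.1).degree) + 0 := by
          gcongr
          · exact degree_mul_le _ _
          · exact degree_C_le
      _ ≤ (0 + (ij.1 : WithBot ℕ)) + 0 := by
          gcongr
          · exact degree_C_le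
          · calc (descPochhammer K ij.1).degree ≤ ((descPochhammer K ij.1).natDegree : WithBot ℕ) :=
                degree_le_natDegree
              _ = (ij.1 : WithBot ℕ) := by rw [descPochhammer_natDegree]
      _ = (ij.1 : WithBot ℕ) := by simp
      _ < ((μ - j : ℕ) : WithBot ℕ) := by
          have : ij.1 < μ - j := by omega
          exact_mod_cast this

variable [CharZero K]

lemma eval_tp (μ : ℕ) (u : ℕ × ℕ → K) (e : ℕ × ℕ) :
    ((tp μ u).eval (C ((e.2 : ℕ) : K))).eval ((e.1 : ℕ) : K) = tf μ u e := by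
  unfold tp tf
  rw [eval_finsetSum, eval_finsetSum]
  apply Finset.sum_congr rfl
  intro ij _
  rw [eval_mul, eval_C, eval_mul, eval_mul, eval_C, descPochhammer_eval_eq_descFactorial,
    eval_map, eval₂_at_apply,
    descPochhammer_eval_eq_descFactorial, eval_C,
    Nat.descFactorial_eq_factorial_mul_choose, Nat.descFactorial_eq_factorial_mul_choose]
  have h1 : ((ij.1.factorial : ℕ) : K) ≠ 0 := by exact_mod_cast Nat.factorial_ne_zero _
  have h2 : ((ij.2.factorial : ℕ) : K) ≠ 0 := by exact_mod_cast Nat.factorial_ne_zero _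
  push_cast
  field_simp

/-- A test function vanishing on a staircase of rows below and on the row itself vanishes on the
whole row. -/
lemma tf_peel {μ : ℕ} {u : ℕ × ℕ → K} (r : ℕ → ℕ) (S : ℕ → Finset ℕ) (k0 : ℕ) (ρ : ℕ)
    (S0 : Finset ℕ) (hS0 : k0 ≤ S0.card) (hk0 : k0 ≤ μ)
    (hcard : ∀ k, k0 < k → k ≤ μ → k ≤ (S k).card)
    (hne : ∀ k, k0 < k → k ≤ μ → r k ≠ ρ)
    (hinj : ∀ k l, k0 < k → k < l → l ≤ μ → r k ≠ r l)
    (hv : ∀ k, k0 < k → k ≤ μ → ∀ s ∈ S k, tf μ u (s, r k) = 0)
    (h0 : ∀ s ∈ S0, tf μ u (s, ρ) = 0) (a : ℕ) : tf μ u (a, ρ) = 0 := by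
  classical
  have key := LowDeg.peel (K := K) (fun k => ((r k : ℕ) : K))
    (fun k => (S k).image fun s : ℕ => (s : K)) k0 (ρ : K) (S0.image fun s : ℕ => (s : K))
    (by rwa [Finset.card_image_of_injective _ Nat.cast_injective]) μ (tp μ u) hk0 (lowDeg_tp μ u)
    (by
      intro k h1 h2
      rw [Finset.card_image_of_injective _ Nat.cast_injective]
      exact hcard k h1 h2)
    (by intro k h1 h2 h; exact hne k h1 h2 (by exact_mod_cast h))
    (by intro k l h1 h2 h3 h; exact hinj k l h1 h2 h3 (by exact_mod_cast h))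
    (by
      intro k h1 h2 s hs
      obtain ⟨s', hs', rfl⟩ := Finset.mem_image.mp hs
      rw [eval_tp μ u (s', r k)]
      exact hv k h1 h2 s' hs')
    (by
      intro s hs
      obtain ⟨s', hs', rfl⟩ := Finset.mem_image.mp hs
      rw [eval_tp μ u (s', ρ)]
      exact h0 s' hs')
  rw [← eval_tp μ u (a, ρ), key, eval_zero]

lemma tf_unisolvent {μ : ℕ} {u : ℕ × ℕ → K} (r : ℕ → ℕ) (S : ℕ → Finset ℕ)
    (hcard : ∀ k, 0 < k → k ≤ μ → k ≤ (S k).card)
    (hinj : ∀ k l, 0 < k → k < l → l ≤ μ → r k ≠ r l)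
    (hv : ∀ k, 0 < k → k ≤ μ → ∀ s ∈ S k, tf μ u (s, r k) = 0) :
    ∀ ij ∈ idx μ, u ij = 0 := by
  classical
  apply coeff_eq_zero_of_tf
  intro e
  have key := LowDeg.eq_zero (K := K) (fun k => ((r k : ℕ) : K))
    (fun k => (S k).image fun s : ℕ => (s : K)) μ (tp μ u) (lowDeg_tp μ u)
    (by
      intro k h1 h2
      rw [Finset.card_image_of_injective _ Nat.cast_injective]
      exact hcard k h1 h2)
    (by intro k l h1 h2 h3 h; exact hinj k l h1 h2 h3 (by exact_mod_cast h))
    (by
      intro k h1 h2 s hs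
      obtain ⟨s', hs', rfl⟩ := Finset.mem_image.mp hs
      rw [eval_tp μ u (s', r k)]
      exact hv k h1 h2 s' hs')
  rw [← eval_tp μ u e, key]; simp

omit [CharZero K] in
/-- Existence of a dual system on a unisolvent set. -/
lemma exists_dual {μ : ℕ} (G : Finset (ℕ × ℕ)) (hG : G.card = (idx μ).card)
    (huni : ∀ u : ℕ × ℕ → K, (∀ g ∈ G, tf μ u g = 0) → ∀ ij ∈ idx μ, u ij = 0) :
    ∀ g ∈ G, ∃ u : ℕ × ℕ → K, tf μ u g = 1 ∧ ∀ g' ∈ G, g' ≠ g → tf μ u g' = 0 := by
  classical
  let ext : (idx μ → K) → (ℕ × ℕ → K) := fun v ij => if h : ij ∈ idx μ then v ⟨ij, h⟩ else 0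
  have htf : ∀ (v : idx μ → K) (e : ℕ × ℕ), tf μ (ext v) e =
      ∑ ij : idx μ, v ij * ((e.1.choose ij.1.1 : ℕ) : K) * ((e.2.choose ij.1.2 : ℕ) : K) := by
    intro v e
    unfold tf
    rw [← Finset.sum_coe_sort (idx μ)]
    apply Finset.sum_congr rfl
    intro ij _
    simp only [ext, ij.2, dif_pos]
  let T : (idx μ → K) →ₗ[K] (G → K) :=
    { toFun := fun v g => ∑ ij : idx μ, v ij * ((g.1.1.choose ij.1.1 : ℕ) : K)
        * ((g.1.2.choose ij.1.2 : ℕ) : K)
      map_add' := by
        intro v w; ext g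
        simp only [Pi.add_apply, add_mul, Finset.sum_add_distrib]
      map_smul' := by
        intro c v; ext g
        simp only [Pi.smul_apply, smul_eq_mul, RingHom.id_apply, Finset.mul_sum, mul_assoc] }
  have hinj : Function.Injective T := by
    rw [← LinearMap.ker_eq_bot, LinearMap.ker_eq_bot']
    intro v hv
    have h1 : ∀ g ∈ G, tf μ (ext v) g = 0 := by
      intro g hg
      rw [htf]
      exact congrFun hv ⟨g, hg⟩
    have h2 := huni (ext v) h1
    ext ij
    have := h2 ij.1 ij.2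
    simpa [ext] using this
  have hsurj : Function.Surjective T := by
    rw [← LinearMap.injective_iff_surjective_of_finrank_eq_finrank]
    · exact hinj
    · simp [hG]
  intro g hg
  obtain ⟨v, hv⟩ := hsurj (Pi.single ⟨g, hg⟩ 1)
  refine ⟨ext v, ?_, ?_⟩
  · rw [htf]
    have := congrFun hv ⟨g, hg⟩
    rw [Pi.single_eq_same] at this
    exact this
  · intro g' hg' hne
    rw [htf]
    have := congrFun hv ⟨g', hg'⟩
    rw [Pi.single_eq_of_ne (by intro h; exact hne (congrArg Subtype.val h))] at this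
    exact this

end Pool.Agent.helper89.Segre
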