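import Mathlib
import Pool.Agent.helper89.Segre.Test

set_option autoImplicit false

/-!
# Ranks of the conditions imposed by fat points on spans of monomials
-/

namespace Pool.Agent.helper89.Segre

open Polynomial

variable {K : Type*} [Field K]

/-- the value of the monomial with exponent `e` at `p` -/
def pw (p : K × K) (e : ℕ × ℕ) : K := p.1 ^ e.1 * p.2 ^ e.2

/-- The space of weight functions: conditions imposed on a polynomial (seen as function on
exponents) by fat points. -/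
def Phi (L : Multiset ((K × K) × ℕ)) : Submodule K (ℕ × ℕ → K) :=
  Submodule.span K {φ | ∃ x ∈ L, ∃ ij ∈ idx x.2, φ = fun e : ℕ × ℕ =>
    pw x.1 e * ((e.1.choose ij.1 : ℕ) : K) * ((e.2.choose ij.2 : ℕ) : K)}

lemma mem_Phi {L : Multiset ((K × K) × ℕ)} {x : (K × K) × ℕ} (hx : x ∈ L) (c : K)
    (u : ℕ × ℕ → K) : (fun e => c * (pw x.1 e * tf x.2 u e)) ∈ Phi L := by
  have : (fun e => c * (pw x.1 e * tf x.2 u e)) = ∑ ij ∈ idx x.2, (c * u ij) •
      (fun e : ℕ × ℕ => pw x.1 e * ((e.1.choose ij.1 : ℕ) : K) * ((e.2.choose ij.2 : ℕ) : K)) := by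
    ext e
    rw [Finset.sum_apply]
    unfold tf
    rw [Finset.mul_sum, Finset.mul_sum]
    apply Finset.sum_congr rfl
    intro ij _
    simp only [Pi.smul_apply, smul_eq_mul]
    ring
  rw [this]
  apply Submodule.sum_mem
  intro ij hij
  apply Submodule.smul_mem
  exact Submodule.subset_span ⟨x, hx, ij, hij, rfl⟩

lemma Phi_mono_of {L L' : Multiset ((K × K) × ℕ)}
    (h : ∀ x ∈ L, ∃ m, x.2 ≤ m ∧ (x.1, m) ∈ L') : Phi L ≤ Phi L' := by
  unfold Phi
  rw [Submodule.span_le]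
  rintro φ ⟨x, hx, ij, hij, rfl⟩
  obtain ⟨m, hm, hx'⟩ := h x hx
  apply Submodule.subset_span
  refine ⟨(x.1, m), hx', ij, ?_, rfl⟩
  rw [mem_idx] at hij ⊢
  exact lt_of_lt_of_le hij hm

/-- The conditions `Phi L` have rank at least `r` on the monomials with exponents in `D`. -/
def HasRank (D : Finset (ℕ × ℕ)) (L : Multiset ((K × K) × ℕ)) (r : ℕ) : Prop :=
  ∃ (ι : Type) (_ : Fintype ι) (_ : DecidableEq ι) (φ : ι → (ℕ × ℕ → K)) (e : ι → ℕ × ℕ),
    Fintype.card ι = r ∧ (∀ i, φ i ∈ Phi L) ∧ (∀ i, e i ∈ D) ∧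
    (Matrix.of fun i j => φ i (e j)).det ≠ 0

lemma HasRank.mono {D D' : Finset (ℕ × ℕ)} {L L' : Multiset ((K × K) × ℕ)} {r : ℕ}
    (h : HasRank D L r) (hD : D ⊆ D') (hL : Phi L ≤ Phi L') : HasRank D' L' r := by
  obtain ⟨ι, i1, i2, φ, e, h1, h2, h3, h4⟩ := h
  exact ⟨ι, i1, i2, φ, e, h1, fun i => hL (h2 i), fun i => hD (h3 i), h4⟩

lemma hasRank_zero (D : Finset (ℕ × ℕ)) (L : Multiset ((K × K) × ℕ)) : HasRank D L 0 := by
  refine ⟨Empty, inferInstance, inferInstance, fun i => i.elim, fun i => i.elim, ?_, ?_, ?_, ?_⟩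
  · simp
  · intro i; exact i.elim
  · intro i; exact i.elim
  · simp

variable (K) in
/-- Some points of the torus, with multiplicities `ms`, impose at least `r` conditions on the
polynomials with exponents in `D`. -/
def Good (D : Finset (ℕ × ℕ)) (ms : Multiset ℕ) (r : ℕ) : Prop :=
  ∃ L : Multiset ((K × K) × ℕ), L.map Prod.snd = ms ∧ (∀ x ∈ L, x.1.1 ≠ 0 ∧ x.1.2 ≠ 0) ∧
    HasRank D L r

lemma Good.mono_left {D D' : Finset (ℕ × ℕ)} {ms : Multiset ℕ} {r : ℕ}
    (h : Good K D ms r) (hD : D ⊆ D') : Good K D' ms r := by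
  obtain ⟨L, h1, h2, h3⟩ := h
  exact ⟨L, h1, h2, h3.mono hD le_rfl⟩

/-- Adding points does not decrease the rank. -/
lemma Good.cons {D : Finset (ℕ × ℕ)} {ms : Multiset ℕ} {r : ℕ}
    (h : Good K D ms r) (m : ℕ) : Good K D (m ::ₘ ms) r := by
  obtain ⟨L, h1, h2, h3⟩ := h
  refine ⟨((1, 1), m) ::ₘ L, by simp [h1], ?_, h3.mono (le_refl _) ?_⟩
  · intro x hx
    rcases Multiset.mem_cons.mp hx with rfl | hx
    · simp
    · exact h2 x hx
  · apply Phi_mono_of
    intro x hx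
    exact ⟨x.2, le_rfl, Multiset.mem_cons_of_mem hx⟩

/-- Raising a multiplicity does not decrease the rank. -/
lemma Good.raise {D : Finset (ℕ × ℕ)} {ms : Multiset ℕ} {r m m' : ℕ}
    (h : Good K D (m' ::ₘ ms) r) (hm : m' ≤ m) : Good K D (m ::ₘ ms) r := by
  classical
  obtain ⟨L, h1, h2, h3⟩ := h
  obtain ⟨x, hx, hx2, hx3⟩ := (Multiset.map_eq_cons _ _ _ _).mpr h1
  refine ⟨(x.1, m) ::ₘ L.erase x, by simp [hx3], ?_, h3.mono (le_refl _) ?_⟩
  · intro z hz
    rcases Multiset.mem_cons.mp hz with rfl | hz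
    · exact h2 x hx
    · exact h2 z (Multiset.mem_of_mem_erase hz)
  · apply Phi_mono_of
    intro z hz
    rw [← Multiset.cons_erase hx] at hz
    rcases Multiset.mem_cons.mp hz with rfl | hz
    · exact ⟨m, by omega, Multiset.mem_cons_self _ _⟩
    · exact ⟨z.2, le_rfl, Multiset.mem_cons_of_mem hz⟩

/-- The weight used for the degeneration. -/
def wt (K0 : ℕ) (e : ℕ × ℕ) : ℕ := K0 * e.2 + (K0 - e.1)

lemma pw_wt (K0 : ℕ) (e : ℕ × ℕ) (he : e.1 ≤ K0) {t : K} (ht : t ≠ 0) :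
    t ^ K0 * pw (t⁻¹, t ^ K0) e = t ^ wt K0 e := by
  unfold pw wt
  simp only
  rw [← pow_mul, pow_add, inv_pow]
  have h : t ^ K0 = t ^ (K0 - e.1) * t ^ e.1 := by rw [← pow_add]; congr 1; omega
  rw [h]
  field_simp

/-- Degeneration step. -/
lemma Good.step [Infinite K] {D D' G : Finset (ℕ × ℕ)} {ms : Multiset ℕ} {r μ : ℕ} (K0 : ℕ)
    (hGD : G ⊆ D) (hD'D : D' ⊆ D) (hK0 : ∀ e ∈ D, e.1 ≤ K0)
    (u : ℕ × ℕ → (ℕ × ℕ → K))
    (hu1 : ∀ g ∈ G, tf μ (u g) g = 1)
    (hu2 : ∀ g ∈ G, ∀ g' ∈ G, g' ≠ g → tf μ (u g) g' = 0)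
    (hu3 : ∀ g ∈ G, ∀ e ∈ D', tf μ (u g) e ≠ 0 → wt K0 g < wt K0 e)
    (h : Good K D' ms r) : Good K D (μ ::ₘ ms) (G.card + r) := by
  classical
  obtain ⟨L, h1, h2, ι, i1, i2, φ, e, h3, h4, h5, h6⟩ := h
  -- the matrix over `K[T]`
  let B : Matrix G ι K[X] := Matrix.of fun g j =>
    C (tf μ (u g) (e j)) * X ^ (wt K0 (e j) - wt K0 g)
  let A : Matrix G G K[X] := 1
  let C' : Matrix ι G K[X] := Matrix.of fun i g => C (φ i g)
  let E : Matrix ι ι K[X] := Matrix.of fun i j => C (φ i (e j))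
  let N : Matrix (G ⊕ ι) (G ⊕ ι) K[X] := Matrix.fromBlocks A B C' E
  have hN0 : N.det.eval 0 ≠ 0 := by
    have hh : N.det.eval 0 = (N.map (Polynomial.evalRingHom (0 : K))).det := by
      rw [← Polynomial.coe_evalRingHom, RingHom.map_det]; rfl
    rw [hh]
    have hmap : N.map (Polynomial.evalRingHom (0 : K)) =
        Matrix.fromBlocks (1 : Matrix G G K) 0 (Matrix.of fun i (g : G) => φ i g)
          (Matrix.of fun i j => φ i (e j)) := by
      rw [Matrix.fromBlocks_map]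
      congr 1
      · simp [A]
      · ext g j
        simp only [B, Matrix.map_apply, Matrix.of_apply, coe_evalRingHom, eval_mul, eval_C,
          eval_pow, eval_X, Matrix.zero_apply]
        by_cases hz : tf μ (u g) (e j) = 0
        · rw [hz, zero_mul]
        · have := hu3 g g.2 (e j) (h5 j) hz
          rw [zero_pow (by omega), mul_zero]
      · ext i g; simp [C']
      · ext i j; simp [E]
    rw [hmap, Matrix.det_fromBlocks_zero₁₂]
    simpa using h6
  have hNne : X * N.det ≠ 0 := by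
    apply mul_ne_zero X_ne_zero
    intro h0
    rw [h0, eval_zero] at hN0
    exact hN0 rfl
  obtain ⟨t, ht⟩ : ∃ t : K, (X * N.det).eval t ≠ 0 := by
    by_contra hcon
    push_neg at hcon
    exact hNne (Polynomial.funext fun t => by simpa using hcon t)
  rw [eval_mul, eval_X] at ht
  have ht0 : t ≠ 0 := left_ne_zero_of_mul ht
  have htN : N.det.eval t ≠ 0 := right_ne_zero_of_mul ht
  -- the new list
  let x0 : (K × K) × ℕ := ((t⁻¹, t ^ K0), μ)
  refine ⟨x0 ::ₘ L, by simp [h1, x0], ?_, ?_⟩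
  · intro x hx
    rcases Multiset.mem_cons.mp hx with rfl | hx
    · exact ⟨inv_ne_zero ht0, pow_ne_zero _ ht0⟩
    · exact h2 x hx
  let F : G → (ℕ × ℕ → K) := fun g ep =>
    (t ^ (wt K0 g))⁻¹ * t ^ K0 * (pw x0.1 ep * tf x0.2 (u g) ep)
  refine ⟨G ⊕ ι, inferInstance, inferInstance, Sum.elim F φ, Sum.elim (fun g => g.1) e,
    ?_, ?_, ?_, ?_⟩
  · simp [h3]
  · rintro (g | i)
    · exact mem_Phi (Multiset.mem_cons_self _ _) _ _
    · refine Phi_mono_of ?_ (h4 i)
      intro x hx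
      exact ⟨x.2, le_rfl, Multiset.mem_cons_of_mem hx⟩
  · rintro (g | i)
    · exact hGD g.2
    · exact hD'D (h5 i)
  · have hh : N.det.eval t = (N.map (Polynomial.evalRingHom t)).det := by
      rw [← Polynomial.coe_evalRingHom, RingHom.map_det]; rfl
    rw [hh] at htN
    convert htN using 2
    have hF : ∀ (g : G) (ep : ℕ × ℕ), ep ∈ D → F g ep =
        (t ^ (wt K0 g))⁻¹ * t ^ (wt K0 ep) * tf μ (u g) ep := by
      intro g ep hep
      simp only [F, x0]
      rw [← pw_wt K0 ep (hK0 ep hep) ht0]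
      ring
    ext a b
    rcases a with g | i <;> rcases b with g' | j
    · simp only [Matrix.of_apply, Sum.elim_inl, N, Matrix.map_apply, Matrix.fromBlocks_apply₁₁, A]
      rw [hF g g' (hGD g'.2)]
      by_cases hgg : g = g'
      · subst hgg
        rw [hu1 g g.2]
        simp [ht0]
      · rw [hu2 g g.2 g' g'.2 (fun h => hgg (Subtype.ext h.symm)), mul_zero,
          Matrix.one_apply_ne hgg]
        simp
    · simp only [Matrix.of_apply, Sum.elim_inl, Sum.elim_inr, N, Matrix.map_apply,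
        Matrix.fromBlocks_apply₁₂, B, coe_evalRingHom, eval_mul, eval_C, eval_pow, eval_X]
      rw [hF g (e j) (hD'D (h5 j))]
      by_cases hz : tf μ (u g) (e j) = 0
      · rw [hz]; ring
      · have := hu3 g g.2 (e j) (h5 j) hz
        rw [show t ^ wt K0 (e j) = t ^ (wt K0 (e j) - wt K0 g) * t ^ wt K0 g by
          rw [← pow_add]; congr 1; omega]
        field_simp
    · simp [N, C']
    · simp [N, E]

end Pool.Agent.helper89.Segre
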