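import Mathlib
import Pool.Agent.helper89.Segre.Rank

set_option autoImplicit false

/-!
# Removing a staircase of slices from a set of rows
-/

namespace Pool.Agent.helper89.Segre

variable {K : Type*} [Field K] [CharZero K]

/-- `c b` boxes are removed from row `b`; the numbers `1, …, μ` are used once each, `r k` is the row
from which `k` boxes are removed, and in a row that is not exhausted, all bigger numbers have been
used before. -/
structure Slice (n μ : ℕ) (y c r : ℕ → ℕ) : Prop where
  le : ∀ b < n, c b ≤ y b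
  row : ∀ k, 0 < k → k ≤ μ → r k < n ∧ c (r k) = k
  col : ∀ b < n, c b ≠ 0 → c b ≤ μ ∧ r (c b) = b
  star : ∀ b < n, c b < y b → ∀ k, c b < k → k ≤ μ → r k < b

lemma Slice.sum {n μ : ℕ} {y c r : ℕ → ℕ} (h : Slice n μ y c r) :
    ∑ b ∈ Finset.range n, c b = (μ + 1).choose 2 := by
  have h1 : ∑ b ∈ Finset.range n, c b = ∑ b ∈ (Finset.range n).filter (fun b => c b ≠ 0), c b := by
    rw [Finset.sum_filter_ne_zero]
  rw [h1]
  have h2 : ∑ b ∈ (Finset.range n).filter (fun b => c b ≠ 0), c b =
      ∑ k ∈ Finset.range μ, (k + 1) := by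
    apply Finset.sum_nbij' (fun b => c b - 1) (fun k => r (k + 1))
    · intro b hb
      rw [Finset.mem_filter, Finset.mem_range] at hb
      have := h.col b hb.1 hb.2
      rw [Finset.mem_range]; omega
    · intro k hk
      rw [Finset.mem_range] at hk
      have := h.row (k + 1) (by omega) (by omega)
      rw [Finset.mem_filter, Finset.mem_range]
      exact ⟨this.1, by omega⟩
    · intro b hb
      rw [Finset.mem_filter, Finset.mem_range] at hb
      have := h.col b hb.1 hb.2
      rw [show c b - 1 + 1 = c b by omega]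
      exact this.2
    · intro k hk
      rw [Finset.mem_range] at hk
      have := h.row (k + 1) (by omega) (by omega)
      omega
    · intro b hb
      rw [Finset.mem_filter, Finset.mem_range] at hb
      omega
  rw [h2]
  have h3 : ∑ k ∈ Finset.range μ, (k + 1) = ∑ k ∈ Finset.range (μ + 1), k := by
    rw [Finset.sum_range_succ' (fun k => k) μ]; simp
  rw [h3, Finset.sum_range_id, Nat.choose_two_right]

lemma Slice.good {n μ : ℕ} {y c r : ℕ → ℕ} (h : Slice n μ y c r) {ms : Multiset ℕ} {s : ℕ}
    (hg : Good K (box n (fun b => y b - c b)) ms s) :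
    Good K (box n y) (μ ::ₘ ms) ((μ + 1).choose 2 + s) := by
  classical
  set D := box n y with hD
  set D' := box n (fun b => y b - c b) with hD'
  have hsub : D' ⊆ D := by
    intro e he
    rw [hD', mem_box] at he
    rw [hD, mem_box]
    exact ⟨he.1, by omega⟩
  set G := D \ D' with hG
  have hmemG : ∀ e, e ∈ G ↔ e.2 < n ∧ y e.2 - c e.2 ≤ e.1 ∧ e.1 < y e.2 := by
    intro e
    rw [hG, Finset.mem_sdiff, hD, hD', mem_box, mem_box]
    constructor
    · rintro ⟨⟨h1, h2⟩, h3⟩
      exact ⟨h1, by by_contra h4; exact h3 ⟨h1, by omega⟩, h2⟩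
    · rintro ⟨h1, h2, h3⟩
      exact ⟨⟨h1, h3⟩, fun h4 => by omega⟩
  have hcardG : G.card = (μ + 1).choose 2 := by
    rw [hG, Finset.card_sdiff_of_subset hsub, hD, hD', card_box, card_box, ← h.sum]
    have : ∑ b ∈ Finset.range n, y b =
        ∑ b ∈ Finset.range n, (y b - c b) + ∑ b ∈ Finset.range n, c b := by
      rw [← Finset.sum_add_distrib]
      apply Finset.sum_congr rfl
      intro b hb
      have := h.le b (Finset.mem_range.mp hb)
      omega
    omega
  let S : ℕ → Finset ℕ := fun k => Finset.Ico (y (r k) - k) (y (r k))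
  have hScard : ∀ k, 0 < k → k ≤ μ → k ≤ (S k).card := by
    intro k h1 h2
    have h3 := h.row k h1 h2
    have h4 := h.le (r k) h3.1
    simp only [S, Nat.card_Ico]
    omega
  have hSG : ∀ k, 0 < k → k ≤ μ → ∀ s ∈ S k, (s, r k) ∈ G := by
    intro k h1 h2 s hs
    have h3 := h.row k h1 h2
    simp only [S, Finset.mem_Ico] at hs
    rw [hmemG]
    simp only
    refine ⟨h3.1, ?_, hs.2⟩
    rw [h3.2]; exact hs.1
  have hinj : ∀ k l, 0 < k → k < l → l ≤ μ → r k ≠ r l := by
    intro k l h1 h2 h3 h4
    have h5 := h.row k h1 (by omega)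
    have h6 := h.row l (by omega) h3
    rw [h4] at h5
    omega
  have huni : ∀ u : ℕ × ℕ → K, (∀ g ∈ G, tf μ u g = 0) → ∀ ij ∈ idx μ, u ij = 0 := by
    intro u hu
    apply tf_unisolvent r S hScard hinj
    intro k h1 h2 s hs
    exact hu _ (hSG k h1 h2 s hs)
  have hdual := exists_dual G (by rw [hcardG, card_idx]) huni
  choose! u hu1 hu2 using hdual
  rw [← hcardG]
  -- the bound
  obtain ⟨K0, hK0⟩ : ∃ K0, ∀ b < n, y b ≤ K0 :=
    ⟨∑ b ∈ Finset.range n, y b, fun b hb =>
      Finset.single_le_sum (f := y) (fun _ _ => Nat.zero_le _) (Finset.mem_range.mpr hb)⟩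
  apply Good.step K0 (G := G) Finset.sdiff_subset hsub
  · intro e he
    rw [hD, mem_box] at he
    have := hK0 _ he.1
    omega
  · exact hu1
  · intro g hg g' hg' hne; exact hu2 g hg g' hg' hne
  · intro g hg e he hne
    by_contra hwt
    apply hne
    have hg' := (hmemG g).mp hg
    have he' := mem_box.mp he
    -- the row of `g` is beyond the row of `e`
    have hrow : e.2 < g.2 := by
      by_contra hcon
      apply hwt
      unfold wt
      have h1 := hK0 _ he'.1
      rcases Nat.lt_or_ge g.2 e.2 with h2 | h2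
      · have h3 : K0 * (g.2 + 1) ≤ K0 * e.2 := Nat.mul_le_mul_left _ h2
        have h4 : K0 * (g.2 + 1) = K0 * g.2 + K0 := by ring
        omega
      · have h3 : g.2 = e.2 := by omega
        rw [h3] at hg' ⊢
        omega
    have hce : c e.2 < y e.2 := by omega
    have hcμ : c e.2 ≤ μ := by
      by_cases h0 : c e.2 = 0
      · omega
      · exact (h.col _ he'.1 h0).1
    have hstar := h.star e.2 he'.1 hce
    apply tf_peel r S (c e.2) e.2 (Finset.Ico (y e.2 - c e.2) (y e.2)) ?_ hcμ
    · intro k h1 h2; exact hScard k (by omega) h2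
    · intro k h1 h2; exact (hstar k h1 h2).ne
    · intro k l h1 h2 h3; exact hinj k l (by omega) h2 h3
    · intro k h1 h2 s hs
      apply hu2 g hg _ (hSG k (by omega) h2 s hs)
      intro heq
      have h3 := hstar k h1 h2
      rw [← heq] at hrow
      simp only at hrow
      omega
    · intro s hs
      rw [Finset.mem_Ico] at hs
      apply hu2 g hg
      · rw [hmemG]; exact ⟨he'.1, hs.1, hs.2⟩
      · intro heq
        rw [← heq] at hrow
        simp only at hrow
        omega
    · rw [Nat.card_Ico]; omega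
  · exact hg

end Pool.Agent.helper89.Segre
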