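import Mathlib
import Pool.Agent.helper89.Segre.Slice

set_option autoImplicit false

/-!
# Existence of the staircase of slices
-/

namespace Pool.Agent.helper89.Segre

/-- An assignment of the numbers in `A` to consecutive rows starting at `b`; the first `w` rows are
exhausted, afterwards the numbers decrease. -/
structure Asg (A : Finset ℕ) (b w : ℕ) (y c r : ℕ → ℕ) : Prop where
  supp : ∀ j, c j ≠ 0 → b ≤ j ∧ j < b + A.card
  pos : ∀ j, b ≤ j → j < b + A.card → c j ≠ 0
  mem : ∀ j, c j ≠ 0 → c j ∈ A ∧ r (c j) = j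
  val : ∀ a ∈ A, c (r a) = a
  le : ∀ j, c j ≤ y j
  desc : ∀ j, b + w ≤ j → c j ≠ 0 → c (j + 1) < c j
  star : ∀ j, b ≤ j → c j < y j → ∀ a ∈ A, c j < a → r a < j
  whole : ∀ k < w, c (b + k) = y (b + k)

lemma Asg.cons {A : Finset ℕ} {b w' w v : ℕ} {y c' r' : ℕ → ℕ}
    (h : Asg (A.erase v) (b + 1) w' y c' r') (hv : v ∈ A) (h0 : 0 ∉ A) (hvy : v ≤ y b)
    (hcase : (v = y b ∧ w = w' + 1) ∨ ((∀ a ∈ A, a ≤ v) ∧ w = 0 ∧ w' = 0)) :
    ∃ c r, Asg A b w y c r := by
  have hv0 : v ≠ 0 := fun h => h0 (h ▸ hv)
  have hcard : (A.erase v).card + 1 = A.card := Finset.card_erase_add_one hv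
  refine ⟨Function.update c' b v, Function.update r' v b, ?_⟩
  have hb : ∀ j, j ≠ b → Function.update c' b v j = c' j := fun j hj =>
    Function.update_of_ne hj _ _
  have hbb : Function.update c' b v b = v := Function.update_self _ _ _
  have hr : ∀ a, a ≠ v → Function.update r' v b a = r' a := fun a ha =>
    Function.update_of_ne ha _ _
  have hrv : Function.update r' v b v = b := Function.update_self _ _ _
  constructor
  · intro j hj
    by_cases hjb : j = b
    · subst hjb; omega
    · rw [hb j hjb] at hj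
      have := h.supp j hj
      omega
  · intro j h1 h2
    by_cases hjb : j = b
    · subst hjb; rwa [hbb]
    · rw [hb j hjb]
      exact h.pos j (by omega) (by omega)
  · intro j hj
    by_cases hjb : j = b
    · subst hjb; rw [hbb, hrv]; exact ⟨hv, rfl⟩
    · rw [hb j hjb] at hj ⊢
      have := h.mem j hj
      have h1 := Finset.mem_erase.mp this.1
      rw [hr _ h1.1]
      exact ⟨h1.2, this.2⟩
  · intro a ha
    by_cases hav : a = v
    · subst hav; rw [hrv, hbb]
    · rw [hr a hav]
      have h1 := h.val a (Finset.mem_erase.mpr ⟨hav, ha⟩)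
      have h2 : c' (r' a) ≠ 0 := by
        rw [h1]; intro h3; exact h0 (h3 ▸ ha)
      have h3 := h.supp _ h2
      rw [hb _ (by omega)]
      exact h1
  · intro j
    by_cases hjb : j = b
    · subst hjb; rwa [hbb]
    · rw [hb j hjb]; exact h.le j
  · intro j hj1 hj2
    rcases hcase with ⟨h1, h2⟩ | ⟨h1, h2, h3⟩
    · rw [hb j (by omega)] at hj2 ⊢
      rw [hb (j + 1) (by omega)]
      exact h.desc j (by omega) hj2
    · by_cases hjb : j = b
      · subst hjb
        rw [hbb, hb (j + 1) (by omega)]
        by_cases hz : c' (j + 1) = 0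
        · omega
        · have h4 := Finset.mem_erase.mp (h.mem _ hz).1
          have h5 := h1 _ h4.2
          omega
      · rw [hb j hjb] at hj2 ⊢
        rw [hb (j + 1) (by omega)]
        exact h.desc j (by omega) hj2
  · intro j hj1 hj2 a ha haj
    by_cases hjb : j = b
    · subst hjb
      rw [hbb] at hj2 haj
      rcases hcase with ⟨h1, h2⟩ | ⟨h1, h2, h3⟩
      · omega
      · have := h1 a ha; omega
    · rw [hb j hjb] at hj2 haj
      by_cases hav : a = v
      · subst hav; rw [hrv]; omega
      · rw [hr a hav]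
        exact h.star j (by omega) hj2 a (Finset.mem_erase.mpr ⟨hav, ha⟩) haj
  · intro k hk
    rcases hcase with ⟨h1, h2⟩ | ⟨h1, h2, h3⟩
    · rcases Nat.eq_zero_or_pos k with rfl | hkp
      · simp only [Nat.add_zero]; rw [hbb, h1]
      · rw [hb _ (by omega)]
        have := h.whole (k - 1) (by omega)
        rw [show b + 1 + (k - 1) = b + k by omega] at this
        exact this
    · omega

lemma Asg.phase2 : ∀ (n : ℕ) (A : Finset ℕ) (b : ℕ) (y : ℕ → ℕ), A.card = n → 0 ∉ A →
    (∀ k < n, ∀ a ∈ A, a ≤ y (b + k) + k) → ∃ c r, Asg A b 0 y c r := by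
  intro n
  induction n with
  | zero =>
    intro A b y hA _ _
    rw [Finset.card_eq_zero] at hA
    subst hA
    refine ⟨fun _ => 0, fun _ => 0, ?_⟩
    constructor <;> simp
  | succ n ih =>
    intro A b y hA h0 hy
    have hne : A.Nonempty := by rw [← Finset.card_pos]; omega
    set M := A.max' hne with hM
    have hMA : M ∈ A := A.max'_mem hne
    have hmax : ∀ a ∈ A, a ≤ M := fun a ha => A.le_max' a ha
    obtain ⟨c', r', h'⟩ := ih (A.erase M) (b + 1) y
      (by rw [Finset.card_erase_of_mem hMA, hA]; simp)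
      (fun h => h0 (Finset.mem_of_mem_erase h))
      (by
        intro k hk a ha
        have h1 := Finset.mem_erase.mp ha
        have h2 := hmax a h1.2
        have h3 := hy (k + 1) (by omega) M hMA
        rw [show b + (k + 1) = b + 1 + k by omega] at h3
        have h4 := h1.1
        omega)
    exact h'.cons hMA h0 (by have := hy 0 (by omega) M hMA; simpa using this)
      (Or.inr ⟨hmax, rfl, rfl⟩)

lemma Asg.exists : ∀ (w : ℕ) (A : Finset ℕ) (b : ℕ) (y : ℕ → ℕ), 0 ∉ A →
    (∀ k < w, y (b + k) ∈ A) → (∀ k l, k < l → l < w → y (b + k) < y (b + l)) →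
    (∀ k < A.card - w, ∀ a ∈ A, a ≤ y (b + w + k) + k) →
    ∃ c r, Asg A b w y c r := by
  intro w
  induction w with
  | zero =>
    intro A b y h0 _ _ h3
    exact Asg.phase2 A.card A b y rfl h0 (by simpa using h3)
  | succ w ih =>
    intro A b y h0 h1 h2 h3
    have hv : y b ∈ A := by simpa using h1 0 (by omega)
    obtain ⟨c', r', h'⟩ := ih (A.erase (y b)) (b + 1) y
      (fun h => h0 (Finset.mem_of_mem_erase h))
      (by
        intro k hk
        rw [Finset.mem_erase, show b + 1 + k = b + (k + 1) by omega]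
        have h4 := h2 0 (k + 1) (by omega) (by omega)
        simp only [Nat.add_zero] at h4
        exact ⟨by omega, h1 (k + 1) (by omega)⟩)
      (by
        intro k l hkl hl
        have := h2 (k + 1) (l + 1) (by omega) (by omega)
        rw [show b + 1 + k = b + (k + 1) by omega, show b + 1 + l = b + (l + 1) by omega]
        exact this)
      (by
        intro k hk a ha
        rw [Finset.card_erase_of_mem hv] at hk
        have := h3 k (by omega) a (Finset.mem_of_mem_erase ha)
        rw [show b + 1 + w + k = b + (w + 1) + k by omega]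
        exact this)
    exact h'.cons hv h0 le_rfl (Or.inl ⟨rfl, rfl⟩)

end Pool.Agent.helper89.Segre
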