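import Mathlib
import Pool.Agent.helper89.Segre.Assign

set_option autoImplicit false

/-!
# The invariant of the row lengths
-/

namespace Pool.Agent.helper89.Segre

/-- The invariant. Row `b` has at most `d + 1 - b` boxes; it is untouched if it has exactly that many
boxes. Nonempty rows are followed by nonempty rows which are not shorter (except for untouched
rows), and are longer unless the row has at least `M` boxes. -/
structure Inv (d M : ℕ) (y : ℕ → ℕ) : Prop where
  bd : ∀ b, y b ≤ d + 1 - b
  gap : ∀ b < d, 0 < y b → y b ≤ y (b + 1) ∨ (y b = d + 1 - b ∧ y (b + 1) = d - b)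
  strict : ∀ b < d, 0 < y b → y b < y (b + 1) ∨ M ≤ y b ∨ y b = d + 1 - b

lemma Inv.mono {d M M' : ℕ} {y : ℕ → ℕ} (h : Inv d M y) (hM : M' ≤ M) : Inv d M' y :=
  ⟨h.bd, h.gap, fun b hb h0 => by
    rcases h.strict b hb h0 with h1 | h1 | h1
    · exact Or.inl h1
    · exact Or.inr (Or.inl (by omega))
    · exact Or.inr (Or.inr h1)⟩

lemma Inv.pos {d M : ℕ} {y : ℕ → ℕ} (h : Inv d M y) {b : ℕ} (hb : b < d) (h0 : 0 < y b) :
    0 < y (b + 1) := by
  rcases h.gap b hb h0 with h1 | h1 <;> omega

lemma Inv.pos_of_le {d M : ℕ} {y : ℕ → ℕ} (h : Inv d M y) {b : ℕ} (h0 : 0 < y b) :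
    ∀ k, b + k ≤ d → 0 < y (b + k) := by
  intro k
  induction k with
  | zero => intro _; exact h0
  | succ k ih =>
    intro hk
    rw [← Nat.add_assoc]
    exact h.pos (by omega) (ih (by omega))

lemma Inv.init (d M : ℕ) : Inv d M (fun b => d + 1 - b) :=
  ⟨fun _ => le_rfl, fun b hb _ => Or.inr ⟨rfl, by omega⟩, fun _ _ _ => Or.inr (Or.inr rfl)⟩

/-- the pivot row -/
lemma Inv.exists_pivot {d M μ : ℕ} {y : ℕ → ℕ} (h : Inv d M y) (hμM : μ ≤ M)
    (hne : ∃ b, 0 < y b) :
    ∃ j0 p, j0 ≤ p ∧ p ≤ d ∧ (∀ b < j0, y b = 0) ∧ (∀ b, j0 ≤ b → b ≤ d → 0 < y b) ∧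
      (∀ b, j0 ≤ b → b < p → y b < μ ∧ y b < y (b + 1)) ∧
      (μ ≤ y p ∨ (y p = d + 1 - p ∧ y p < μ)) := by
  classical
  have hjd : ∀ b, 0 < y b → b ≤ d := by
    intro b hb
    have := h.bd b
    omega
  set j0 := Nat.find hne with hj0
  have hj0pos : 0 < y j0 := Nat.find_spec hne
  have hj0d := hjd _ hj0pos
  have hlow : ∀ b < j0, y b = 0 := fun b hb => by
    have := Nat.find_min hne hb
    omega
  have hpos : ∀ b, j0 ≤ b → b ≤ d → 0 < y b := by
    intro b hb hbd
    obtain ⟨k, rfl⟩ := Nat.exists_eq_add_of_le hb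
    exact h.pos_of_le hj0pos k hbd
  have hex : ∃ b, j0 ≤ b ∧ (μ ≤ y b ∨ y b = d + 1 - b) := by
    refine ⟨d, hj0d, Or.inr ?_⟩
    have h1 := hpos d hj0d le_rfl
    have h2 := h.bd d
    omega
  set p := Nat.find hex with hp
  have hp1 := Nat.find_spec hex
  have hp2 : ∀ b < p, ¬ (j0 ≤ b ∧ (μ ≤ y b ∨ y b = d + 1 - b)) := fun b hb => Nat.find_min hex hb
  have hpd : p ≤ d := by
    apply Nat.find_min' hex
    refine ⟨hj0d, Or.inr ?_⟩
    have h1 := hpos d hj0d le_rfl
    have h2 := h.bd d
    omega
  refine ⟨j0, p, hp1.1, hpd, hlow, hpos, ?_, ?_⟩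
  · intro b hb1 hb2
    have h1 := hp2 b hb2
    have h2 : ¬ (μ ≤ y b) := fun h3 => h1 ⟨hb1, Or.inl h3⟩
    have h3 : y b ≠ d + 1 - b := fun h3 => h1 ⟨hb1, Or.inr h3⟩
    have h4 := h.strict b (by omega) (hpos b hb1 (by omega))
    refine ⟨by omega, ?_⟩
    rcases h4 with h5 | h5 | h5
    · exact h5
    · omega
    · exact absurd h5 h3
  · by_cases h1 : μ ≤ y p
    · exact Or.inl h1
    · rcases hp1.2 with h2 | h2
      · exact absurd h2 h1
      · exact Or.inr ⟨h2, by omega⟩

/-- The move: if the pivot row is long enough then the staircase exists and the invariant is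
preserved. -/
lemma Inv.move {d M μ : ℕ} {y : ℕ → ℕ} (h : Inv d M y) (hμ : 0 < μ) (hμM : μ ≤ M) {j0 p : ℕ}
    (hj0p : j0 ≤ p) (hlow : ∀ b < j0, y b = 0)
    (hpos : ∀ b, j0 ≤ b → b ≤ d → 0 < y b)
    (hwhole : ∀ b, j0 ≤ b → b < p → y b < μ ∧ y b < y (b + 1))
    (hμp : μ ≤ y p) (hlen : 2 * μ ≤ d + 1 - p) :
    ∃ c r, Slice (d + 1) μ y c r ∧ Inv d μ (fun b => y b - c b) := by
  have hchain : ∀ k l, k < l → l < p - j0 → y (j0 + k) < y (j0 + l) := by
    intro k l hkl
    induction l with
    | zero => omega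
    | succ l ih =>
      intro hl
      have h1 := (hwhole (j0 + l) (by omega) (by omega)).2
      rcases Nat.lt_or_ge k l with h2 | h2
      · exact (ih h2 (by omega)).trans h1
      · have : k = l := by omega
        subst this; exact h1
  have hdown : ∀ k, k < μ → y p ≤ y (p + k) + k := by
    intro k
    induction k with
    | zero => intro _; simp
    | succ k ih =>
      intro hk
      have h1 := ih (by omega)
      have h2 := hpos (p + k) (by omega) (by omega)
      have e : p + (k + 1) = p + k + 1 := by omega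
      rw [e]
      rcases h.gap (p + k) (by omega) h2 with h3 | h3
      · omega
      · omega
  obtain ⟨c, r, hc⟩ := Asg.exists (p - j0) (Finset.Icc 1 μ) j0 y (by simp)
    (by
      intro k hk
      have h1 := hwhole (j0 + k) (by omega) (by omega)
      have h2 := hpos (j0 + k) (by omega) (by omega)
      rw [Finset.mem_Icc]; omega)
    hchain
    (by
      intro k hk a ha
      rw [Nat.card_Icc] at hk
      rw [Finset.mem_Icc] at ha
      have := hdown k (by omega)
      rw [show j0 + (p - j0) + k = p + k by omega]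
      omega)
  have hcard : (Finset.Icc 1 μ).card = μ := by rw [Nat.card_Icc]; omega
  have hsupp : ∀ j, c j ≠ 0 → j0 ≤ j ∧ j < j0 + μ := by
    intro j hj; have := hc.supp j hj; rwa [hcard] at this
  have hposc : ∀ j, j0 ≤ j → j < j0 + μ → c j ≠ 0 := by
    intro j h1 h2; exact hc.pos j h1 (by rwa [hcard])
  have hmem : ∀ j, c j ≠ 0 → (1 ≤ c j ∧ c j ≤ μ) ∧ r (c j) = j := by
    intro j hj
    have := hc.mem j hj
    rwa [Finset.mem_Icc] at this
  have hdesc : ∀ j, p ≤ j → c j ≠ 0 → c (j + 1) < c j := by
    intro j h1 h2; exact hc.desc j (by omega) h2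
  have hcle : ∀ k, c (p + k) ≠ 0 → c (p + k) + k ≤ μ := by
    intro k
    induction k with
    | zero => intro h1; simpa using (hmem p h1).1.2
    | succ k ih =>
      have e : p + (k + 1) = p + k + 1 := by omega
      rw [e]
      intro h1
      have h2 := hsupp _ h1
      have h3 := hposc (p + k) (by omega) (by omega)
      have h4 := ih h3
      have h5 := hdesc (p + k) (by omega) h3
      omega
  have hwh : ∀ b, j0 ≤ b → b < p → c b = y b := by
    intro b h1 h2
    have := hc.whole (b - j0) (by omega)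
    rwa [show j0 + (b - j0) = b by omega] at this
  refine ⟨c, r, ?_, ?_⟩
  · constructor
    · intro b _; exact hc.le b
    · intro k h1 h2
      have h3 := hc.val k (Finset.mem_Icc.mpr ⟨h1, h2⟩)
      have h4 := hsupp (r k) (by rw [h3]; omega)
      exact ⟨by omega, h3⟩
    · intro b _ h1
      have := hmem b h1
      exact ⟨this.1.2, this.2⟩
    · intro b _ h1 k h2 h3
      have hb : j0 ≤ b := by
        by_contra hcon
        have := hlow b (by omega)
        omega
      exact hc.star b hb h1 k (Finset.mem_Icc.mpr ⟨by omega, h3⟩) h2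
  · have key : ∀ b < d, 0 < y b - c b →
        (y b - c b < y (b + 1) - c (b + 1)) ∨ (μ ≤ y b - c b ∧ y b - c b ≤ y (b + 1) - c (b + 1)) ∨
          (c b = 0 ∧ c (b + 1) = 0) := by
      intro b hb h1
      have hbp : p ≤ b := by
        by_contra hcon
        rcases Nat.lt_or_ge b j0 with h2 | h2
        · have := hlow b h2; omega
        · have := hwh b h2 (by omega); omega
      by_cases hc0 : c b = 0
      · right; right
        refine ⟨hc0, ?_⟩
        by_contra hc1
        have h2 := hsupp _ hc1
        exact hposc b (by omega) (by omega) hc0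
      · have h2 := hdesc b hbp hc0
        have h3 := hc.le b
        have h4 := hc.le (b + 1)
        rcases h.gap b hb (by omega) with h5 | ⟨h5, h6⟩
        · left; omega
        · right; left
          obtain ⟨k, rfl⟩ := Nat.exists_eq_add_of_le hbp
          have h7 := hcle k hc0
          constructor
          · omega
          · omega
    constructor
    · intro b; have := h.bd b; omega
    · intro b hb h1
      rcases key b hb h1 with h2 | ⟨h2, h3⟩ | ⟨h2, h3⟩
      · left; omega
      · left; exact h3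
      · rw [h2, h3]
        simpa using h.gap b hb (by omega)
    · intro b hb h1
      rcases key b hb h1 with h2 | ⟨h2, h3⟩ | ⟨h2, h3⟩
      · left; omega
      · right; left; exact h2
      · rw [h2, h3]
        simp only [Nat.sub_zero]
        rcases h.strict b hb (by omega) with h4 | h4 | h4
        · left; exact h4
        · right; left; omega
        · right; right; exact h4

end Pool.Agent.helper89.Segre
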