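import Mathlib
import Pool.Agent.helper89.Segre.Inv

set_option autoImplicit false

/-!
# The main induction
-/

namespace Pool.Agent.helper89.Segre

variable {K : Type} [Field K]

/-- number of conditions imposed by a point of multiplicity `m` -/
def kk (m : ℕ) : ℕ := (m + 1).choose 2

lemma two_mul_kk (m : ℕ) : 2 * kk m = m * m + m := by
  unfold kk
  have h := Nat.triangle_succ m
  have h2 : (m + 1).choose 2 = m * (m + 1) / 2 := by
    rw [Nat.choose_two_right]; simp [Nat.mul_comm]
  rw [h2]
  have : 2 ∣ m * (m + 1) := (Nat.even_mul_succ_self m).two_dvd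
  rw [Nat.mul_div_cancel' this]; ring

lemma kk_mono {a b : ℕ} (h : a ≤ b) : kk a ≤ kk b :=
  Nat.choose_le_choose 2 (by omega)

lemma two_mul_choose_two (m : ℕ) : 2 * m.choose 2 + m = m * m := by
  rcases m with _ | m
  · simp
  · have := two_mul_kk m
    unfold kk at this
    rw [Nat.mul_comm 2] at this ⊢
    rw [this]; ring

/-- The sum of the lengths when the pivot row is short. -/
lemma stuck_bound {d μ : ℕ} {y : ℕ → ℕ} {j0 p : ℕ} (hbd : ∀ b, y b ≤ d + 1 - b)
    (hj0p : j0 ≤ p) (hpd : p ≤ d) (hlow : ∀ b < j0, y b = 0)
    (hwhole : ∀ b, j0 ≤ b → b < p → y b < μ ∧ y b < y (b + 1))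
    (hshort : d + 1 - p < 2 * μ) :
    (box (d + 1) y).card ≤ μ.choose 2 + (2 * μ).choose 2 := by
  classical
  rw [card_box]
  have hsplit : ∑ b ∈ Finset.range (d + 1), y b =
      ∑ b ∈ Finset.range p, y b + ∑ b ∈ Finset.Ico p (d + 1), y b :=
    (Finset.sum_range_add_sum_Ico _ (by omega)).symm
  have h1 : ∑ b ∈ Finset.range p, y b ≤ μ.choose 2 := by
    have h2 : ∑ b ∈ Finset.range p, y b = ∑ b ∈ Finset.range j0, y b +
        ∑ b ∈ Finset.Ico j0 p, y b := (Finset.sum_range_add_sum_Ico _ hj0p).symm
    have h3 : ∑ b ∈ Finset.range j0, y b = 0 := Finset.sum_eq_zero fun b hb =>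
      hlow b (Finset.mem_range.mp hb)
    have hchain : ∀ k l, k < l → j0 ≤ k → l < p → y k < y l := by
      intro k l hkl hk
      induction l with
      | zero => omega
      | succ l ih =>
        intro hl
        have h1 := (hwhole l (by omega) (by omega)).2
        rcases Nat.lt_or_ge k l with h2 | h2
        · exact (ih h2 (by omega)).trans h1
        · have : k = l := by omega
          subst this; exact h1
    have hinj : Set.InjOn y (Finset.Ico j0 p : Finset ℕ) := by
      intro k hk l hl hkl
      rw [Finset.coe_Ico, Set.mem_Ico] at hk hl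
      by_contra hne
      rcases Nat.lt_or_gt_of_ne hne with h | h
      · have := hchain k l h hk.1 hl.2; omega
      · have := hchain l k h hl.1 hk.2; omega
    have h4 : ∑ b ∈ Finset.Ico j0 p, y b = ∑ v ∈ (Finset.Ico j0 p).image y, v := by
      rw [Finset.sum_image hinj]
    rw [h2, h3, h4, zero_add]
    calc ∑ v ∈ (Finset.Ico j0 p).image y, v ≤ ∑ v ∈ Finset.range μ, v := by
          apply Finset.sum_le_sum_of_subset
          intro v hv
          obtain ⟨b, hb, rfl⟩ := Finset.mem_image.mp hv
          rw [Finset.mem_Ico] at hb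
          exact Finset.mem_range.mpr (hwhole b hb.1 hb.2).1
      _ = μ.choose 2 := by rw [Finset.sum_range_id, Nat.choose_two_right]
  have h2 : ∑ b ∈ Finset.Ico p (d + 1), y b ≤ (2 * μ).choose 2 := by
    calc ∑ b ∈ Finset.Ico p (d + 1), y b ≤ ∑ b ∈ Finset.Ico p (d + 1), (d + 1 - b) :=
          Finset.sum_le_sum fun b _ => hbd b
      _ = ∑ b ∈ Finset.range (d + 1 - p), (d + 1 - p - b) := by
          rw [Finset.sum_Ico_eq_sum_range]
          apply Finset.sum_congr rfl
          intro b _; omega
      _ = (d + 1 - p + 1).choose 2 := sum_range_sub_self _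
      _ ≤ (2 * μ).choose 2 := Nat.choose_le_choose 2 (by omega)
  omega

variable (K) in
lemma good_zero (D : Finset (ℕ × ℕ)) (ms : Multiset ℕ) : Good K D ms 0 := by
  refine ⟨ms.map fun m => ((1, 1), m), ?_, ?_, hasRank_zero _ _⟩
  · rw [Multiset.map_map]; simp
  · intro x hx
    obtain ⟨m, _, rfl⟩ := Multiset.mem_map.mp hx
    simp

lemma tf_one (u : ℕ × ℕ → K) (e : ℕ × ℕ) : tf 1 u e = u (0, 0) := by
  have : idx 1 = {(0, 0)} := by
    ext x
    rw [mem_idx, Finset.mem_singleton]
    constructor
    · intro h; ext <;> simp <;> omega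
    · rintro rfl; simp
  unfold tf
  rw [this]
  simp

lemma good_one [Infinite K] {D : Finset (ℕ × ℕ)} (hD : D.Nonempty) {ms : Multiset ℕ} {r : ℕ}
    (h : ∀ D' : Finset (ℕ × ℕ), D'.card + 1 = D.card → Good K D' ms r) :
    Good K D (1 ::ₘ ms) (1 + r) := by
  classical
  obtain ⟨K0, hK0⟩ : ∃ K0, ∀ e ∈ D, e.1 < K0 :=
    ⟨∑ e ∈ D, e.1 + 1, fun e he => Nat.lt_succ_of_le
      (Finset.single_le_sum (f := fun e : ℕ × ℕ => e.1) (fun _ _ => Nat.zero_le _) he)⟩
  obtain ⟨e0, he0, hmin⟩ := D.exists_min_image (wt K0) hD
  have := Good.step (K := K) (D := D) (D' := D.erase e0) (G := {e0}) (μ := 1) (ms := ms) (r := r) K0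
    (by simpa using he0) (Finset.erase_subset _ _) (fun e he => (hK0 e he).le)
    (fun _ _ => 1) (by intro g _; rw [tf_one])
    (by
      intro g hg g' hg' hne
      rw [Finset.mem_singleton] at hg hg'
      exact absurd (hg'.trans hg.symm) hne)
    (by
      intro g hg e he _
      rw [Finset.mem_singleton] at hg
      subst hg
      have he' := Finset.mem_erase.mp he
      have h1 := hmin e he'.2
      refine lt_of_le_of_ne h1 ?_
      intro heq
      apply he'.1
      have h2 := hK0 e he'.2
      have h3 := hK0 g he0
      unfold wt at heq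
      have h4 : e.2 = g.2 := by
        rcases Nat.lt_trichotomy e.2 g.2 with h5 | h5 | h5
        · exfalso
          have h6 : K0 * (e.2 + 1) ≤ K0 * g.2 := Nat.mul_le_mul_left _ h5
          have h7 : K0 * (e.2 + 1) = K0 * e.2 + K0 := by ring
          omega
        · exact h5
        · exfalso
          have h6 : K0 * (g.2 + 1) ≤ K0 * e.2 := Nat.mul_le_mul_left _ h5
          have h7 : K0 * (g.2 + 1) = K0 * g.2 + K0 := by ring
          omega
      rw [h4] at heq
      ext
      · omega
      · exact h4)
    (h _ (by rw [Finset.card_erase_add_one he0]))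
  simpa using this

lemma good_ones [Infinite K] (L : Multiset ℕ) : (∀ m ∈ L, m ≤ 1) → ∀ D : Finset (ℕ × ℕ),
    Good K D L (min (L.map kk).sum D.card) := by
  induction L using Multiset.induction_on with
  | empty => intro _ D; simpa using good_zero K D 0
  | cons m L ih =>
    intro hL D
    have hm := hL m (Multiset.mem_cons_self _ _)
    have hL' : ∀ m ∈ L, m ≤ 1 := fun x hx => hL x (Multiset.mem_cons_of_mem hx)
    rcases Nat.eq_zero_or_pos m with rfl | hm0
    · have := (ih hL' D).cons 0
      simpa [kk] using this
    · have : m = 1 := by omega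
      subst this
      rcases D.eq_empty_or_nonempty with rfl | hD
      · simpa using good_zero K ∅ (1 ::ₘ L)
      · have h1 := good_one (K := K) (r := min (L.map kk).sum (D.card - 1)) hD (ms := L)
          (by
            intro D' hD'
            have := ih hL' D'
            rwa [show D'.card = D.card - 1 by omega] at this)
        have h2 : 1 + min (L.map kk).sum (D.card - 1) =
            min (((1 ::ₘ L).map kk).sum) D.card := by
          have : 0 < D.card := Finset.card_pos.mpr hD
          rw [Multiset.map_cons, Multiset.sum_cons]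
          simp only [kk, Nat.choose_self, Nat.reduceAdd] at *
          omega
        rwa [h2] at h1

/-- Sum of the numbers of conditions of the points of multiplicity less than `ν`. -/
def Slt (L : Multiset ℕ) (ν : ℕ) : ℕ := ((L.filter (fun x => x < ν)).map kk).sum

/-- Sum of the numbers of conditions of the points of multiplicity at least `ν`. -/
def Sge (L : Multiset ℕ) (ν : ℕ) : ℕ := ((L.filter (fun x => ν ≤ x)).map kk).sum

lemma Slt_cons_of_lt {L : Multiset ℕ} {m ν : ℕ} (h : m < ν) :
    Slt (m ::ₘ L) ν = kk m + Slt L ν := by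
  unfold Slt; simp [h]

lemma Slt_cons_of_ge {L : Multiset ℕ} {m ν : ℕ} (h : ν ≤ m) :
    Slt (m ::ₘ L) ν = Slt L ν := by
  unfold Slt; simp [h]

lemma Sge_cons_of_le {L : Multiset ℕ} {m ν : ℕ} (h : ν ≤ m) :
    Sge (m ::ₘ L) ν = kk m + Sge L ν := by
  unfold Sge; simp [h]

lemma Sge_cons_of_gt {L : Multiset ℕ} {m ν : ℕ} (h : m < ν) :
    Sge (m ::ₘ L) ν = Sge L ν := by
  unfold Sge; simp [h]

lemma Slt_le (L : Multiset ℕ) (ν : ℕ) : Slt L ν ≤ (L.map kk).sum := by
  induction L using Multiset.induction_on with
  | empty => simp [Slt]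
  | cons m L ih =>
    rw [Multiset.map_cons, Multiset.sum_cons]
    rcases Nat.lt_or_ge m ν with h | h
    · rw [Slt_cons_of_lt h]; omega
    · rw [Slt_cons_of_ge h]; omega

/-- The numerical condition. -/
def Cond (N : ℕ) (L : Multiset ℕ) : Prop :=
  ∀ ν ∈ L, 2 ≤ ν → (2 * ν).choose 2 ≤ Slt L ν ∨ Sge L ν + 2 * ν * (ν - 1) < N

theorem good_main [CharZero K] (d : ℕ) : ∀ (s : ℕ) (M : ℕ) (y : ℕ → ℕ) (L : Multiset ℕ),
    L.sum + Multiset.card L ≤ s → Inv d M y → (∀ m ∈ L, m ≤ M) → Cond (box (d + 1) y).card L →
    Good K (box (d + 1) y) L (min (L.map kk).sum (box (d + 1) y).card) := by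
  classical
  intro s
  induction s with
  | zero =>
    intro M y L hs _ _ _
    have : L = 0 := Multiset.card_eq_zero.mp (by omega)
    subst this
    simpa using good_zero K (box (d + 1) y) 0
  | succ s ih =>
    intro M y L hs hinv hM hcond
    by_cases hL0 : L = 0
    · subst hL0; simpa using good_zero K (box (d + 1) y) 0
    -- the largest multiplicity
    obtain ⟨μ, hμL, hμmax⟩ : ∃ μ ∈ L, ∀ m ∈ L, m ≤ μ := by
      have hne : L.toFinset.Nonempty := by
        rw [Finset.nonempty_iff_ne_empty]; intro h; exact hL0 (Multiset.toFinset_eq_empty.mp h)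
      refine ⟨L.toFinset.max' hne, Multiset.mem_toFinset.mp (Finset.max'_mem _ _), ?_⟩
      intro m hm
      exact Finset.le_max' _ _ (Multiset.mem_toFinset.mpr hm)
    obtain ⟨L', rfl⟩ := Multiset.exists_cons_of_mem hμL
    rcases Nat.lt_or_ge 1 μ with hμ2 | hμ1
    swap
    · exact good_ones _ (fun m hm => (hμmax m hm).trans hμ1) _
    have hL'μ : ∀ m ∈ L', m ≤ μ := fun m hm => hμmax m (Multiset.mem_cons_of_mem hm)
    rcases Nat.eq_zero_or_pos (box (d + 1) y).card with hD0 | hDpos
    · rw [hD0, Nat.min_zero]; exact good_zero K _ _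
    have hne : ∃ b, 0 < y b := by
      obtain ⟨e, he⟩ := Finset.card_pos.mp hDpos
      rw [mem_box] at he
      exact ⟨e.2, by omega⟩
    have hμM : μ ≤ M := hM μ (Multiset.mem_cons_self _ _)
    obtain ⟨j0, p, hj0p, hpd, hlow, hpos, hwhole, hp⟩ := hinv.exists_pivot hμM hne
    simp only [Multiset.sum_cons, Multiset.card_cons] at hs
    have hkμ := two_mul_kk μ
    by_cases hmove : μ ≤ y p ∧ 2 * μ ≤ d + 1 - p
    · -- the move is possible
      obtain ⟨c, r, hslice, hinv'⟩ := hinv.move (by omega) hμM hj0p hlow hpos hwhole hmove.1 hmove.2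
      have hcard : (box (d + 1) y).card = (box (d + 1) (fun b => y b - c b)).card + kk μ := by
        rw [card_box, card_box, kk, ← hslice.sum, ← Finset.sum_add_distrib]
        apply Finset.sum_congr rfl
        intro b hb
        have := hslice.le b (Finset.mem_range.mp hb)
        omega
      have h1 := ih μ (fun b => y b - c b) L' (by omega) hinv' hL'μ (by
        intro ν hν h2
        rcases hcond ν (Multiset.mem_cons_of_mem hν) h2 with h3 | h3
        · left
          rwa [Slt_cons_of_ge (hL'μ ν hν)] at h3
        · right
          rw [Sge_cons_of_le (hL'μ ν hν)] at h3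
          omega)
      have h2 := hslice.good h1
      rw [Multiset.map_cons, Multiset.sum_cons]
      have h3 : (μ + 1).choose 2 + min (L'.map kk).sum (box (d + 1) fun b => y b - c b).card =
          min (kk μ + (L'.map kk).sum) (box (d + 1) y).card := by
        rw [hcard]
        change kk μ + _ = _
        omega
      rwa [h3] at h2
    · -- stuck
      have hshort : d + 1 - p < 2 * μ := by
        rcases hp with hp | hp
        · by_contra hcon
          exact hmove ⟨hp, by omega⟩
        · omega
      have hstuck := stuck_bound hinv.bd hj0p hpd hlow hwhole hshort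
      have hc1 := two_mul_choose_two μ
      have hc2 := two_mul_choose_two (2 * μ)
      have h2μ : 2 * μ * (μ - 1) + 2 * μ = 2 * μ * μ := by
        obtain ⟨t, rfl⟩ := Nat.exists_eq_add_of_le' (show 1 ≤ μ by omega)
        simp only [Nat.add_sub_cancel]; ring
      have hq : (2 * μ) * (2 * μ) = 4 * (μ * μ) := by ring
      have hq2 : 2 * μ * μ = 2 * (μ * μ) := by ring
      have hfat : (2 * μ).choose 2 ≤ Slt L' μ := by
        rcases hcond μ (Multiset.mem_cons_self _ _) (by omega) with h3 | h3
        · rwa [Slt_cons_of_ge le_rfl] at h3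
        · exfalso
          rw [Sge_cons_of_le le_rfl] at h3
          omega
      have hfat' := hfat.trans (Slt_le L' μ)
      rw [Multiset.map_cons, Multiset.sum_cons]
      have hmin : min (kk μ + (L'.map kk).sum) (box (d + 1) y).card = (box (d + 1) y).card := by
        omega
      rw [hmin]
      rcases Nat.lt_or_ge (L'.map kk).sum (box (d + 1) y).card with hlt | hge
      · -- replace `μ` by `μ - 1`
        obtain ⟨m', rfl⟩ : ∃ m', μ = m' + 1 := ⟨μ - 1, by omega⟩
        have hkm' : kk m' = (m' + 1).choose 2 := rfl
        have hkk : kk m' ≤ kk (m' + 1) := kk_mono (by omega)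
        have hIH := ih M y (m' ::ₘ L') (by simp only [Multiset.sum_cons, Multiset.card_cons]; omega)
          hinv (by
            intro m hm
            rcases Multiset.mem_cons.mp hm with rfl | hm
            · omega
            · exact (hL'μ m hm).trans hμM) (by
            have hold : ∀ ν ∈ L', 2 ≤ ν → (2 * ν).choose 2 ≤ Slt (m' ::ₘ L') ν ∨
                Sge (m' ::ₘ L') ν + 2 * ν * (ν - 1) < (box (d + 1) y).card := by
              intro ν hν h2
              rcases hcond ν (Multiset.mem_cons_of_mem hν) h2 with h3 | h3
              · left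
                rw [Slt_cons_of_ge (hL'μ ν hν)] at h3
                refine h3.trans ?_
                by_cases h7 : m' < ν
                · rw [Slt_cons_of_lt h7]; omega
                · rw [Slt_cons_of_ge (by omega)]
              · right
                rw [Sge_cons_of_le (hL'μ ν hν)] at h3
                by_cases h7 : ν ≤ m'
                · rw [Sge_cons_of_le h7]; omega
                · rw [Sge_cons_of_gt (by omega)]; omega
            intro ν hν h2
            by_cases hνL : ν ∈ L'
            · exact hold ν hνL h2
            · rcases Multiset.mem_cons.mp hν with rfl | hν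
              swap
              · exact absurd hν hνL
              -- `m'` is not among the old multiplicities: then `Slt` does not change up to `μ`
              left
              rw [Slt_cons_of_ge le_rfl]
              have : Slt L' (ν + 1) = Slt L' ν := by
                unfold Slt
                congr 2
                apply Multiset.filter_congr
                intro x hx
                constructor
                · intro h
                  rcases Nat.lt_or_ge x ν with h8 | h8
                  · exact h8
                  · exfalso; apply hνL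
                    have : x = ν := by omega
                    rwa [this] at hx
                · intro h; omega
              rw [← this]
              exact (Nat.choose_le_choose 2 (by omega)).trans hfat)
        rw [Multiset.map_cons, Multiset.sum_cons] at hIH
        have hmin2 : min (kk m' + (L'.map kk).sum) (box (d + 1) y).card = (box (d + 1) y).card := by
          omega
        rw [hmin2] at hIH
        exact hIH.raise (by omega)
      · have hIH := ih M y L' (by omega) hinv (fun m hm => (hL'μ m hm).trans hμM) (by
          intro ν hν h2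
          rcases hcond ν (Multiset.mem_cons_of_mem hν) h2 with h3 | h3
          · left
            rwa [Slt_cons_of_ge (hL'μ ν hν)] at h3
          · right
            rw [Sge_cons_of_le (hL'μ ν hν)] at h3
            omega)
        rw [Nat.min_eq_right hge] at hIH
        exact hIH.cons μ

end Pool.Agent.helper89.Segre
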