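import Mathlib
import Pool.Agent.helper89.Segre.Main

set_option autoImplicit false

/-!
# Four points of multiplicity `μ` on a grid kill the curves of degree less than `2 μ`
-/

namespace Pool.Agent.helper89.Segre

open Polynomial

variable {K : Type} [Field K]

/-- `P` vanishes to order `μ` at `(s, t)`. -/
def Van (P : K[X][X]) (s t : K) (μ : ℕ) : Prop :=
  ∀ j, (X - C s) ^ (μ - j) ∣ (taylor (C t) P).coeff j

lemma Van.mono {P : K[X][X]} {s t : K} {μ ν : ℕ} (h : Van P s t μ) (hν : ν ≤ μ) : Van P s t ν :=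
  fun j => (pow_dvd_pow _ (by omega)).trans (h j)

lemma Van.of_mul_same {Q : K[X][X]} {s t : K} {μ : ℕ} (h : Van ((X - C (C t)) * Q) s t (μ + 1)) :
    Van Q s t μ := by
  intro j
  have h1 := h (j + 1)
  rw [taylor_mul] at h1
  have h2 : taylor (C t) (X - C (C t) : K[X][X]) = X := by
    rw [map_sub, taylor_X, taylor_C]; ring
  rw [h2, coeff_X_mul, Nat.add_sub_add_right] at h1
  exact h1

lemma Van.of_mul_ne {Q : K[X][X]} {s t t' : K} {μ : ℕ} (ht : t ≠ t')
    (h : Van ((X - C (C t')) * Q) s t μ) : Van Q s t μ := by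
  have h2 : taylor (C t) (X - C (C t') : K[X][X]) = X + C (C (t - t')) := by
    rw [map_sub, taylor_X, taylor_C, C_sub, C_sub]; ring
  have hunit : IsUnit (C (t - t') : K[X]) := by
    rw [isUnit_C]; exact (sub_ne_zero.mpr ht).isUnit
  intro j
  induction j with
  | zero =>
    have h1 := h 0
    rw [taylor_mul, h2, add_mul, coeff_add, coeff_X_mul_zero, zero_add, coeff_C_mul] at h1
    exact (hunit.dvd_mul_left).mp h1
  | succ j ih =>
    have h1 := h (j + 1)
    rw [taylor_mul, h2, add_mul, coeff_add, coeff_X_mul, coeff_C_mul] at h1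
    have h3 : (X - C s) ^ (μ - (j + 1)) ∣ (taylor (C t) Q).coeff j :=
      (pow_dvd_pow _ (by omega)).trans ih
    exact (hunit.dvd_mul_left).mp ((dvd_add_right h3).mp h1)

lemma Van.of_mul_pow_ne {s t t' : K} {μ : ℕ} (ht : t ≠ t') :
    ∀ (n : ℕ) (Q : K[X][X]), Van ((X - C (C t')) ^ n * Q) s t μ → Van Q s t μ := by
  intro n
  induction n with
  | zero => intro Q h; simpa using h
  | succ n ih =>
    intro Q h
    rw [pow_succ, mul_assoc] at h
    exact (ih _ h).of_mul_ne ht

lemma row_zero {P : K[X][X]} {n μ : ℕ} (hP : LowDeg n P) (hn : n ≤ 2 * μ) {s1 s2 t : K}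
    (hs : s1 ≠ s2) (h1 : Van P s1 t μ) (h2 : Van P s2 t μ) : P.eval (C t) = 0 := by
  have e1 := h1 0
  have e2 := h2 0
  rw [taylor_coeff_zero, Nat.sub_zero] at e1 e2
  have hcop : IsCoprime ((X - C s1) ^ μ) ((X - C s2) ^ μ) :=
    (isCoprime_X_sub_C_of_isUnit_sub (sub_ne_zero.mpr hs).isUnit).pow
  have e3 := hcop.mul_dvd e1 e2
  by_contra hne
  have h3 := degree_le_of_dvd e3 hne
  rw [degree_mul, degree_pow, degree_pow, degree_X_sub_C, degree_X_sub_C] at h3
  have h4 := hP.degree_eval t
  have h5 := lt_of_le_of_lt h3 h4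
  simp only [nsmul_eq_mul, mul_one] at h5
  have h6 : μ + μ < n := by exact_mod_cast h5
  omega

lemma kill {s1 s2 t1 t2 : K} (hs : s1 ≠ s2) (ht : t1 ≠ t2) :
    ∀ (μ n : ℕ) (P : K[X][X]), n ≤ 2 * μ → LowDeg n P → Van P s1 t1 μ → Van P s1 t2 μ →
    Van P s2 t1 μ → Van P s2 t2 μ → P = 0 := by
  intro μ
  induction μ with
  | zero =>
    intro n P hn hP _ _ _ _
    have : n = 0 := by omega
    subst this
    exact lowDeg_zero_iff.mp hP
  | succ μ ih =>
    intro n P hn hP h11 h12 h21 h22
    have e1 := row_zero hP hn hs h11 h21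
    obtain ⟨Q, rfl, hQ⟩ := hP.exists_factor e1
    have q11 := h11.of_mul_same
    have q21 := h21.of_mul_same
    have q12 := h12.of_mul_ne ht.symm
    have q22 := h22.of_mul_ne ht.symm
    have e2 := row_zero hQ (by omega) hs q12 q22
    obtain ⟨R, rfl, hR⟩ := hQ.exists_factor e2
    have hR0 : R = 0 := ih (n - 1 - 1) R (by omega) hR (q11.of_mul_ne ht) q12.of_mul_same
      (q21.of_mul_ne ht) q22.of_mul_same
    rw [hR0]; simp

/-- The polynomial with coefficients `c` on the exponents in `D`, divided by `Y ^ p`. -/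
noncomputable def poly (D : Finset (ℕ × ℕ)) (p : ℕ) (c : ℕ × ℕ → K) : K[X][X] :=
  ∑ e ∈ D, C (C (c e) * X ^ e.1) * X ^ (e.2 - p)

lemma lowDeg_poly {D : Finset (ℕ × ℕ)} {p x : ℕ} (hD : ∀ e ∈ D, e.1 + (e.2 - p) < x)
    (c : ℕ × ℕ → K) : LowDeg x (poly D p c) := by
  apply LowDeg.sum
  intro e he j
  rw [coeff_C_mul, coeff_X_pow]
  split_ifs with hj
  · rw [mul_one]
    calc (C (c e) * X ^ e.1).degree ≤ (e.1 : WithBot ℕ) := degree_C_mul_X_pow_le _ _
      _ < ((x - j : ℕ) : WithBot ℕ) := by
        have := hD e he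
        have h2 : e.1 < x - j := by omega
        exact_mod_cast h2
  · rw [mul_zero, degree_zero]; exact WithBot.bot_lt_coe _

lemma van_poly {D : Finset (ℕ × ℕ)} {μ : ℕ} {s t : K} (hs : s ≠ 0) (ht : t ≠ 0) (c : ℕ × ℕ → K)
    (h : ∀ ij ∈ idx μ, ∑ e ∈ D, c e * (pw (s, t) e * ((e.1.choose ij.1 : ℕ) : K) *
      ((e.2.choose ij.2 : ℕ) : K)) = 0) : Van (poly D 0 c) s t μ := by
  intro j
  rw [X_sub_C_pow_dvd_iff, X_pow_dvd_iff]
  intro i hi
  have key : (((taylor (C t) (poly D 0 c)).coeff j).comp (X + C s)).coeff i =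
      ∑ e ∈ D, c e * (s ^ (e.1 - i) * ((e.1.choose i : ℕ) : K)) *
        (t ^ (e.2 - j) * ((e.2.choose j : ℕ) : K)) := by
    unfold poly
    rw [map_sum, finsetSum_coeff, ← taylor_apply, map_sum, finsetSum_coeff]
    apply Finset.sum_congr rfl
    intro e _
    rw [taylor_mul, taylor_C, taylor_X_pow, coeff_C_mul, coeff_X_add_C_pow, taylor_mul, taylor_mul,
      taylor_C, taylor_X_pow, Nat.sub_zero, ← C_pow, ← C_eq_natCast, ← C_mul, taylor_C, coeff_mul_C,
      coeff_C_mul, coeff_X_add_C_pow]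
  rw [key]
  have h1 := h (i, j) (by rw [mem_idx]; simp only; omega)
  have h2 : ∑ e ∈ D, c e * (pw (s, t) e * ((e.1.choose i : ℕ) : K) * ((e.2.choose j : ℕ) : K)) =
      s ^ i * t ^ j * ∑ e ∈ D, c e * (s ^ (e.1 - i) * ((e.1.choose i : ℕ) : K)) *
        (t ^ (e.2 - j) * ((e.2.choose j : ℕ) : K)) := by
    rw [Finset.mul_sum]
    apply Finset.sum_congr rfl
    intro e _
    unfold pw
    simp only
    rcases Nat.lt_or_ge e.1 i with hlt | hge
    · rw [Nat.choose_eq_zero_of_lt hlt]; simp
    rcases Nat.lt_or_ge e.2 j with hlt2 | hge2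
    · rw [Nat.choose_eq_zero_of_lt hlt2]; simp
    · have e1 : s ^ e.1 = s ^ i * s ^ (e.1 - i) := by rw [← pow_add]; congr 1; omega
      have e2 : t ^ e.2 = t ^ j * t ^ (e.2 - j) := by rw [← pow_add]; congr 1; omega
      rw [e1, e2]; ring
  simp only at h1
  rw [h2] at h1
  rcases mul_eq_zero.mp h1 with h3 | h3
  · exfalso
    exact (mul_ne_zero (pow_ne_zero _ hs) (pow_ne_zero _ ht)) h3
  · exact h3

/-- Duality: if only the zero coefficient vector satisfies all conditions, then the conditions have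
full rank. -/
lemma hasRank_of_injective (D : Finset (ℕ × ℕ)) (L : Multiset ((K × K) × ℕ))
    (h : ∀ c : ℕ × ℕ → K, (∀ φ ∈ Phi L, ∑ e ∈ D, c e * φ e = 0) → ∀ e ∈ D, c e = 0) :
    HasRank D L D.card := by
  classical
  let R : (ℕ × ℕ → K) →ₗ[K] (D → K) := LinearMap.funLeft K K (fun e : D => (e : ℕ × ℕ))
  have htop : (Phi L).map R = ⊤ := by
    by_contra hne
    obtain ⟨f, hf0, hf⟩ := Submodule.exists_le_ker_of_lt_top _ (lt_top_iff_ne_top.mpr hne)
    apply hf0
    let c : ℕ × ℕ → K := fun e => if he : e ∈ D then f (Pi.single ⟨e, he⟩ 1) else 0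
    have hfc : ∀ v : D → K, f v = ∑ e : D, v e * c e := by
      intro v
      rw [LinearMap.pi_apply_eq_sum_univ f v]
      apply Finset.sum_congr rfl
      intro e _
      simp only [c, e.2, dif_pos, smul_eq_mul]
      congr 2
      ext j
      by_cases hj : e = j
      · subst hj; simp
      · rw [if_neg hj, Pi.single_eq_of_ne (fun h => hj h.symm)]
    have hc := h c (by
      intro φ hφ
      have h1 : R φ ∈ f.ker := hf (Submodule.mem_map_of_mem hφ)
      rw [LinearMap.mem_ker, hfc] at h1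
      rw [← Finset.sum_coe_sort D, ← h1]
      apply Finset.sum_congr rfl
      intro e _
      simp only [R, LinearMap.funLeft_apply]
      ring)
    ext e
    simp only [LinearMap.coe_comp, LinearMap.coe_single, Function.comp_apply, LinearMap.zero_comp,
      LinearMap.zero_apply]
    have := hc e e.2
    simpa [c, e.2] using this
  have hex : ∀ e : D, ∃ φ ∈ Phi L, R φ = Pi.single e 1 := by
    intro e
    have : (Pi.single e 1 : D → K) ∈ (Phi L).map R := by rw [htop]; trivial
    obtain ⟨φ, h1, h2⟩ := this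
    exact ⟨φ, h1, h2⟩
  choose φ hφ1 hφ2 using hex
  refine ⟨D, inferInstance, inferInstance, φ, fun e => e, by simp, hφ1, fun e => e.2, ?_⟩
  have : (Matrix.of fun i j => φ i (j : ℕ × ℕ) : Matrix D D K) = 1 := by
    ext i j
    have := congrFun (hφ2 i) j
    simp only [R, LinearMap.funLeft_apply] at this
    rw [Matrix.of_apply, this, Matrix.one_apply]
    by_cases hij : i = j
    · subst hij; simp
    · rw [if_neg hij, Pi.single_eq_of_ne (fun h => hij h.symm)]
  rw [this]; simp

/-- Four points of multiplicity `μ` kill everything in a translated triangle of side less than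
`2 μ + 1`. -/
lemma good_four [CharZero K] {D : Finset (ℕ × ℕ)} {p μ : ℕ}
    (hD : ∀ e ∈ D, p ≤ e.2 ∧ e.1 + (e.2 - p) < 2 * μ) :
    Good K D {μ, μ, μ, μ} D.card := by
  classical
  have h12 : (1 : K) ≠ 2 := by norm_num
  have h2 : (2 : K) ≠ 0 := by norm_num
  refine ⟨{((1, 1), μ), ((1, 2), μ), ((2, 1), μ), ((2, 2), μ)}, by simp, ?_, ?_⟩
  · intro x hx
    simp only [Multiset.insert_eq_cons, Multiset.mem_cons, Multiset.mem_singleton] at hx
    rcases hx with rfl | rfl | rfl | rfl <;> simp [h2]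
  · apply hasRank_of_injective
    intro c hc
    have hvan : ∀ s t : K, s ≠ 0 → t ≠ 0 → ((s, t), μ) ∈ ({((1, 1), μ), ((1, 2), μ), ((2, 1), μ),
        ((2, 2), μ)} : Multiset ((K × K) × ℕ)) → Van (poly D p c) s t μ := by
      intro s t hs ht hmem
      have h1 : Van (poly D 0 c) s t μ := by
        apply van_poly hs ht
        intro ij hij
        exact hc _ (Submodule.subset_span ⟨_, hmem, ij, hij, rfl⟩)
      have h3 : poly D 0 c = (X - C (C 0)) ^ p * poly D p c := by
        unfold poly
        rw [Finset.mul_sum]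
        apply Finset.sum_congr rfl
        intro e he
        have := hD e he
        rw [C_0, C_0, sub_zero, Nat.sub_zero,
          show (X : K[X][X]) ^ e.2 = X ^ p * X ^ (e.2 - p) by rw [← pow_add]; congr 1; omega]
        ring
      rw [h3] at h1
      exact Van.of_mul_pow_ne ht p _ h1
    have hzero : poly D p c = 0 := by
      apply kill h12 h12 μ (2 * μ) _ le_rfl (lowDeg_poly (fun e he => (hD e he).2) c)
      · exact hvan 1 1 one_ne_zero one_ne_zero (by simp)
      · exact hvan 1 2 one_ne_zero h2 (by simp)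
      · exact hvan 2 1 h2 one_ne_zero (by simp)
      · exact hvan 2 2 h2 h2 (by simp)
    intro e he
    have hcoef : ((poly D p c).coeff (e.2 - p)).coeff e.1 = c e := by
      unfold poly
      rw [finsetSum_coeff, finsetSum_coeff, Finset.sum_eq_single e]
      · rw [coeff_C_mul, coeff_X_pow_self, mul_one, coeff_C_mul, coeff_X_pow_self, mul_one]
      · intro f hf hne
        rw [coeff_C_mul, coeff_X_pow]
        split_ifs with h5
        · rw [mul_one, coeff_C_mul, coeff_X_pow]
          split_ifs with h6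
          · exfalso; apply hne
            have h7 := (hD e he).1
            have h8 := (hD f hf).1
            ext
            · exact h6.symm
            · omega
          · rw [mul_zero]
        · simp
      · intro h; exact absurd he h
    rw [← hcoef, hzero]; simp

end Pool.Agent.helper89.Segre
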