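import Mathlib
import Pool.Agent.helper89.Segre.Grid

set_option autoImplicit false

/-!
# Emptiness with five points in reserve
-/

namespace Pool.Agent.helper89.Segre

variable {K : Type} [Field K] [CharZero K]

/-- One point of multiplicity `μ` removes the rows before the pivot row. -/
lemma good_rows {n μ : ℕ} {y : ℕ → ℕ} {j0 p : ℕ} (hlow : ∀ b < j0, y b = 0)
    (hwhole : ∀ b, j0 ≤ b → b < p → y b < μ ∧ y b < y (b + 1)) {ms : Multiset ℕ} {s : ℕ}
    (hg : Good K ((box n y).filter (fun e => p ≤ e.2)) ms s) :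
    Good K (box n y) (μ ::ₘ ms) (((box n y).filter (fun e => e.2 < p)).card + s) := by
  classical
  have hchain : ∀ k l, k < l → j0 ≤ k → l < p → y k < y l := by
    intro k l hkl hk
    induction l with
    | zero => omega
    | succ l ih =>
      intro hl
      have h1 := (hwhole l (by omega) (by omega)).2
      rcases Nat.lt_or_ge k l with h2 | h2
      · exact (ih h2 (by omega)).trans h1
      · have : k = l := by omega
        subst this; exact h1
  let r : ℕ → ℕ := fun k => if h : ∃ b, j0 ≤ b ∧ b < p ∧ y b = k then h.choose else p + k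
  have hr1 : ∀ b, j0 ≤ b → b < p → r (y b) = b := by
    intro b hb1 hb2
    have hex : ∃ b', j0 ≤ b' ∧ b' < p ∧ y b' = y b := ⟨b, hb1, hb2, rfl⟩
    have hh : r (y b) = hex.choose := by simp only [r]; rw [dif_pos hex]
    have h1 := hex.choose_spec
    rw [hh]
    rcases Nat.lt_trichotomy hex.choose b with h2 | h2 | h2
    · have := hchain _ _ h2 h1.1 hb2; omega
    · exact h2
    · have := hchain _ _ h2 hb1 h1.2.1; omega
  have hr2 : ∀ k, (r k < p ∧ y (r k) = k) ∨ r k = p + k := by
    intro k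
    by_cases hex : ∃ b, j0 ≤ b ∧ b < p ∧ y b = k
    · left
      have hh : r k = hex.choose := by simp only [r]; rw [dif_pos hex]
      rw [hh]
      exact ⟨hex.choose_spec.2.1, hex.choose_spec.2.2⟩
    · right; simp only [r]; rw [dif_neg hex]
  have hinj : ∀ k l, 0 < k → k < l → l ≤ μ → r k ≠ r l := by
    intro k l _ hkl _ heq
    rcases hr2 k with h1 | h1 <;> rcases hr2 l with h2 | h2
    · rw [heq] at h1; omega
    · omega
    · omega
    · omega
  let Gt : Finset (ℕ × ℕ) := ((Finset.Icc 1 μ).sigma fun k => Finset.range k).image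
    fun s => (s.2, r s.1)
  have hGtcard : Gt.card = (idx μ).card := by
    rw [card_idx]
    simp only [Gt]
    rw [Finset.card_image_of_injOn, Finset.card_sigma]
    · simp only [Finset.card_range]
      have h3 : ∑ k ∈ Finset.Icc 1 μ, k = ∑ k ∈ Finset.range (μ + 1), k := by
        rw [Finset.range_eq_Ico, Finset.sum_eq_sum_Ico_succ_bot (by omega)]
        simp only [zero_add]
        rfl
      rw [h3, Finset.sum_range_id, Nat.choose_two_right]
    · rintro ⟨k, a⟩ hk ⟨l, b⟩ hl heq
      rw [Finset.mem_coe, Finset.mem_sigma, Finset.mem_Icc] at hk hl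
      simp only [Prod.mk.injEq] at heq
      obtain ⟨rfl, h2⟩ := heq
      have : k = l := by
        rcases Nat.lt_trichotomy k l with h3 | h3 | h3
        · exact absurd h2 (hinj k l hk.1.1 h3 hl.1.2)
        · exact h3
        · exact absurd h2.symm (hinj l k hl.1.1 h3 hk.1.2)
      subst this; rfl
  have huni : ∀ u : ℕ × ℕ → K, (∀ g ∈ Gt, tf μ u g = 0) → ∀ ij ∈ idx μ, u ij = 0 := by
    intro u hu
    apply tf_unisolvent r (fun k => Finset.range k) (fun k _ _ => by simp) hinj
    intro k h1 h2 s hs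
    apply hu
    simp only [Gt, Finset.mem_image, Finset.mem_sigma, Sigma.exists]
    exact ⟨k, s, ⟨Finset.mem_Icc.mpr ⟨h1, h2⟩, hs⟩, rfl⟩
  have hdual := exists_dual Gt hGtcard huni
  choose! u hu1 hu2 using hdual
  have hsub : (box n y).filter (fun e => e.2 < p) ⊆ Gt := by
    intro e he
    rw [Finset.mem_filter, mem_box] at he
    have h1 : j0 ≤ e.2 := by
      by_contra hcon
      have := hlow e.2 (by omega)
      omega
    have h2 := hwhole e.2 h1 he.2
    simp only [Gt, Finset.mem_image, Finset.mem_sigma, Sigma.exists]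
    refine ⟨y e.2, e.1, ⟨Finset.mem_Icc.mpr ⟨by omega, by omega⟩,
      Finset.mem_range.mpr he.1.2⟩, ?_⟩
    rw [hr1 e.2 h1 he.2]
  obtain ⟨K0, hK0⟩ : ∃ K0, ∀ b < n, y b ≤ K0 :=
    ⟨∑ b ∈ Finset.range n, y b, fun b hb =>
      Finset.single_le_sum (f := y) (fun _ _ => Nat.zero_le _) (Finset.mem_range.mpr hb)⟩
  apply Good.step K0 (G := (box n y).filter (fun e => e.2 < p)) (Finset.filter_subset _ _)
    (Finset.filter_subset _ _) ?_ u ?_ ?_ ?_ hg
  · intro e he
    rw [mem_box] at he
    have := hK0 _ he.1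
    omega
  · intro g hg; exact hu1 g (hsub hg)
  · intro g hg g' hg' hne; exact hu2 g (hsub hg) g' (hsub hg') hne
  · intro g hg e he _
    rw [Finset.mem_filter, mem_box] at hg he
    unfold wt
    have h1 : K0 * (g.2 + 1) ≤ K0 * e.2 := Nat.mul_le_mul_left _ (by omega)
    have h2 : K0 * (g.2 + 1) = K0 * g.2 + K0 := by ring
    have h3 := hK0 _ he.1.1
    omega

/-- In a stuck state, five points of multiplicity `μ` kill everything. -/
lemma good_five {d μ : ℕ} {y : ℕ → ℕ} {j0 p : ℕ} (hbd : ∀ b, y b ≤ d + 1 - b)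
    (hlow : ∀ b < j0, y b = 0)
    (hwhole : ∀ b, j0 ≤ b → b < p → y b < μ ∧ y b < y (b + 1))
    (hshort : d + 1 - p < 2 * μ) :
    Good K (box (d + 1) y) {μ, μ, μ, μ, μ} (box (d + 1) y).card := by
  classical
  have h1 : Good K ((box (d + 1) y).filter (fun e => p ≤ e.2)) {μ, μ, μ, μ}
      ((box (d + 1) y).filter (fun e => p ≤ e.2)).card := by
    apply good_four (p := p)
    intro e he
    rw [Finset.mem_filter, mem_box] at he
    have := hbd e.2
    exact ⟨he.2, by omega⟩
  have h2 := good_rows hlow hwhole h1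
  have h3 : ((box (d + 1) y).filter (fun e => e.2 < p)).card +
      ((box (d + 1) y).filter (fun e => p ≤ e.2)).card = (box (d + 1) y).card := by
    rw [← Finset.card_filter_add_card_filter_not (s := box (d + 1) y) (fun e => e.2 < p)]
    congr 2
    apply Finset.filter_congr
    intro e _; simp
  rw [h3] at h2
  exact h2

omit [CharZero K] in
lemma Good.add {D : Finset (ℕ × ℕ)} {ms : Multiset ℕ} {r : ℕ}
    (h : Good K D ms r) (S : Multiset ℕ) : Good K D (S + ms) r := by
  induction S using Multiset.induction_on with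
  | empty => simpa using h
  | cons m S ih => rw [Multiset.cons_add]; exact ih.cons m

omit [CharZero K] in
/-- Replace five equal multiplicities by five larger ones. -/
lemma Good.raise_five {D : Finset (ℕ × ℕ)} {μ r a1 a2 a3 a4 a5 : ℕ}
    (h : Good K D {μ, μ, μ, μ, μ} r) (h1 : μ ≤ a1) (h2 : μ ≤ a2) (h3 : μ ≤ a3) (h4 : μ ≤ a4)
    (h5 : μ ≤ a5) : Good K D {a1, a2, a3, a4, a5} r := by
  simp only [Multiset.insert_eq_cons, ← Multiset.cons_zero] at h ⊢
  have e1 : Good K D (a1 ::ₘ μ ::ₘ μ ::ₘ μ ::ₘ μ ::ₘ 0) r := h.raise h1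
  have e2 : Good K D (a1 ::ₘ a2 ::ₘ μ ::ₘ μ ::ₘ μ ::ₘ 0) r := by
    rw [Multiset.cons_swap] at e1 ⊢; exact e1.raise h2
  have e3 : Good K D (a1 ::ₘ a2 ::ₘ a3 ::ₘ μ ::ₘ μ ::ₘ 0) r := by
    rw [Multiset.cons_swap a2, Multiset.cons_swap a1] at e2 ⊢; exact e2.raise h3
  have e4 : Good K D (a1 ::ₘ a2 ::ₘ a3 ::ₘ a4 ::ₘ μ ::ₘ 0) r := by
    rw [Multiset.cons_swap a3, Multiset.cons_swap a2, Multiset.cons_swap a1] at e3 ⊢
    exact e3.raise h4
  have e5 : Good K D (a1 ::ₘ a2 ::ₘ a3 ::ₘ a4 ::ₘ a5 ::ₘ 0) r := by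
    rw [Multiset.cons_swap a4, Multiset.cons_swap a3, Multiset.cons_swap a2,
      Multiset.cons_swap a1] at e4 ⊢
    exact e4.raise h5
  exact e5

/-- Emptiness: five points in reserve. -/
theorem good_empty (d a1 a2 a3 a4 a5 : ℕ) : ∀ (s : ℕ) (M : ℕ) (y : ℕ → ℕ) (L : Multiset ℕ),
    Multiset.card L ≤ s → Inv d M y → (∀ m ∈ L, m ≤ M) → 
    (∀ m ∈ L, m ≤ a1 ∧ m ≤ a2 ∧ m ≤ a3 ∧ m ≤ a4 ∧ m ≤ a5) →
    (box (d + 1) y).card ≤ (L.map kk).sum →
    Good K (box (d + 1) y) ({a1, a2, a3, a4, a5} + L) (box (d + 1) y).card := by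
  classical
  intro s
  induction s with
  | zero =>
    intro M y L hs _ _ _ hsum
    have : L = 0 := Multiset.card_eq_zero.mp (by omega)
    subst this
    have h0 : (box (d + 1) y).card = 0 := by simpa using hsum
    rw [h0]; exact good_zero K _ _
  | succ s ih =>
    intro M y L hs hinv hM ha hsum
    rcases Nat.eq_zero_or_pos (box (d + 1) y).card with hD0 | hDpos
    · rw [hD0]; exact good_zero K _ _
    have hL0 : L ≠ 0 := by
      rintro rfl
      rw [Multiset.map_zero, Multiset.sum_zero] at hsum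
      omega
    obtain ⟨μ, hμL, hμmax⟩ : ∃ μ ∈ L, ∀ m ∈ L, m ≤ μ := by
      have hne : L.toFinset.Nonempty := by
        rw [Finset.nonempty_iff_ne_empty]; intro h; exact hL0 (Multiset.toFinset_eq_empty.mp h)
      refine ⟨L.toFinset.max' hne, Multiset.mem_toFinset.mp (Finset.max'_mem _ _), ?_⟩
      intro m hm
      exact Finset.le_max' _ _ (Multiset.mem_toFinset.mpr hm)
    obtain ⟨L', rfl⟩ := Multiset.exists_cons_of_mem hμL
    have hL'μ : ∀ m ∈ L', m ≤ μ := fun m hm => hμmax m (Multiset.mem_cons_of_mem hm)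
    have hμM : μ ≤ M := hM μ (Multiset.mem_cons_self _ _)
    rcases Nat.eq_zero_or_pos μ with rfl | hμ0
    · exfalso
      have : ((0 ::ₘ L').map kk).sum = 0 := by
        apply Multiset.sum_eq_zero
        intro x hx
        obtain ⟨m, hm, rfl⟩ := Multiset.mem_map.mp hx
        have := hμmax m hm
        have : m = 0 := by omega
        subst this; rfl
      omega
    have hne : ∃ b, 0 < y b := by
      obtain ⟨e, he⟩ := Finset.card_pos.mp hDpos
      rw [mem_box] at he
      exact ⟨e.2, by omega⟩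
    obtain ⟨j0, p, hj0p, hpd, hlow, hpos, hwhole, hp⟩ := hinv.exists_pivot hμM hne
    simp only [Multiset.card_cons] at hs
    by_cases hmove : μ ≤ y p ∧ 2 * μ ≤ d + 1 - p
    · obtain ⟨c, r, hslice, hinv'⟩ := hinv.move hμ0 hμM hj0p hlow hpos hwhole hmove.1 hmove.2
      have hcard : (box (d + 1) y).card = (box (d + 1) (fun b => y b - c b)).card + kk μ := by
        rw [card_box, card_box, kk, ← hslice.sum, ← Finset.sum_add_distrib]
        apply Finset.sum_congr rfl
        intro b hb
        have := hslice.le b (Finset.mem_range.mp hb)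
        omega
      rw [Multiset.map_cons, Multiset.sum_cons] at hsum
      have h1 := ih μ (fun b => y b - c b) L' (by omega) hinv' hL'μ
        (fun m hm => ha m (Multiset.mem_cons_of_mem hm)) (by omega)
      have h2 := hslice.good h1
      rw [← Multiset.add_cons] at h2
      have h3 : (μ + 1).choose 2 + (box (d + 1) fun b => y b - c b).card =
          (box (d + 1) y).card := by
        rw [hcard]
        change kk μ + _ = _
        omega
      rwa [h3] at h2
    · have hshort : d + 1 - p < 2 * μ := by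
        rcases hp with hp | hp
        · by_contra hcon
          exact hmove ⟨hp, by omega⟩
        · omega
      have ha' := ha μ (Multiset.mem_cons_self _ _)
      have h5 := (good_five (K := K) hinv.bd hlow hwhole hshort).raise_five ha'.1 ha'.2.1
        ha'.2.2.1 ha'.2.2.2.1 ha'.2.2.2.2
      have h6 := h5.add (μ ::ₘ L')
      rwa [add_comm (μ ::ₘ L')] at h6

end Pool.Agent.helper89.Segre
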