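import Mathlib
import Pool.Agent.helper89.Segre.Empty
import Pool.Agent.helper89.Segre.Def

set_option autoImplicit false

/-!
# Forms of degree `d` in three variables and general points
-/

namespace Pool.Agent.helper89.Segre

open MvPolynomial

/-- exponents of the monomials of degree `d` in three variables -/
noncomputable def ex (d : ℕ) (e : ℕ × ℕ) : Fin 3 →₀ ℕ :=
  Finsupp.single 0 e.1 + Finsupp.single 1 e.2 + Finsupp.single 2 (d - e.1 - e.2)

lemma ex_zero (d : ℕ) (e : ℕ × ℕ) : ex d e 0 = e.1 := by simp [ex]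
lemma ex_one (d : ℕ) (e : ℕ × ℕ) : ex d e 1 = e.2 := by simp [ex]
lemma ex_two (d : ℕ) (e : ℕ × ℕ) : ex d e 2 = d - e.1 - e.2 := by simp [ex]

/-- the triangle -/
def tri (d : ℕ) : Finset (ℕ × ℕ) := box (d + 1) (fun b => d + 1 - b)

lemma mem_tri {d : ℕ} {e : ℕ × ℕ} : e ∈ tri d ↔ e.1 + e.2 ≤ d := by
  unfold tri; rw [mem_box]; omega

lemma card_tri (d : ℕ) : (tri d).card = (d + 2).choose 2 := by
  unfold tri; rw [card_box, sum_range_sub_self]

/-- one-variable Taylor coefficient -/
def gg (x : ℂ) (a i : ℕ) : ℂ := x ^ (a - i) * ((a.choose i : ℕ) : ℂ)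

lemma gg_rel (x : ℂ) (a i : ℕ) :
    x * ((i : ℂ) + 1) * gg x a (i + 1) = ((a : ℂ) - i) * gg x a i := by
  unfold gg
  rcases Nat.lt_or_ge i a with h | h
  · have h1 : (a.choose (i + 1)) * (i + 1) = a.choose i * (a - i) := Nat.choose_succ_right_eq a i
    have h2 : ((a.choose (i + 1) : ℕ) : ℂ) * ((i : ℂ) + 1) = ((a.choose i : ℕ) : ℂ) * ((a : ℂ) - i) := by
      have := congrArg (fun z : ℕ => (z : ℂ)) h1
      simp only [Nat.cast_mul, Nat.cast_add, Nat.cast_one, Nat.cast_sub h.le] at this
      exact this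
    have h3 : x ^ (a - i) = x * x ^ (a - (i + 1)) := by
      rw [← pow_succ']; congr 1; omega
    rw [h3]
    linear_combination (x * x ^ (a - (i + 1))) * h2
  · rw [Nat.choose_eq_zero_of_lt (show a < i + 1 by omega)]
    rcases Nat.eq_or_lt_of_le h with h | h
    · subst h; simp
    · rw [Nat.choose_eq_zero_of_lt h]; simp

/-- coefficient of a product of univariate polynomials in distinct variables -/
lemma coeff_prod_aeval (q : Fin 3 → Polynomial ℂ) (n : Fin 3 →₀ ℕ) :
    coeff n (∏ j, Polynomial.aeval (X j : MvPolynomial (Fin 3) ℂ) (q j)) =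
      ∏ j, (q j).coeff (n j) := by
  classical
  have h1 : ∀ j, Polynomial.aeval (X j : MvPolynomial (Fin 3) ℂ) (q j) =
      ∑ i ∈ Finset.range ((q j).natDegree + 1), C ((q j).coeff i) * X j ^ i := by
    intro j
    rw [Polynomial.aeval_eq_sum_range]
    apply Finset.sum_congr rfl
    intro i _
    rw [Algebra.smul_def]; rfl
  simp_rw [h1]
  rw [Finset.prod_univ_sum, coeff_sum]
  have h2 : ∀ x : Fin 3 → ℕ, coeff n (∏ j, (C ((q j).coeff (x j)) * X j ^ x j :
      MvPolynomial (Fin 3) ℂ)) = if x = n then ∏ j, (q j).coeff (x j) else 0 := by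
    intro x
    rw [Finset.prod_mul_distrib, ← map_prod, coeff_C_mul]
    have h3 : ∏ j, (X j : MvPolynomial (Fin 3) ℂ) ^ x j =
        monomial (Finsupp.equivFunOnFinite.symm x) 1 := by
      rw [monomial_eq]
      simp only [C_1, one_mul]
      rw [Finsupp.prod_fintype]
      · rfl
      · intro i; simp
    rw [h3, coeff_monomial]
    have h4 : (Finsupp.equivFunOnFinite.symm x = n) ↔ (x = n) := by
      constructor
      · rintro rfl; rfl
      · intro h; ext j; exact congrFun h j
    by_cases h5 : x = n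
    · rw [if_pos h5, if_pos (h4.mpr h5), mul_one]
    · rw [if_neg h5, if_neg (fun h => h5 (h4.mp h)), mul_zero]
  rw [Finset.sum_congr rfl fun x _ => h2 x]
  rw [Finset.sum_ite_eq']
  split_ifs with h6
  · rfl
  · rw [Fintype.mem_piFinset] at h6
    push Not at h6
    obtain ⟨j, hj⟩ := h6
    rw [Finset.mem_range, not_lt] at hj
    symm
    apply Finset.prod_eq_zero (Finset.mem_univ j)
    apply Polynomial.coeff_eq_zero_of_natDegree_lt
    omega

lemma coeff_shift_monomial (p : Fin 3 → ℂ) (s n : Fin 3 →₀ ℕ) (c : ℂ) :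
    coeff n (aeval (R := ℂ) (fun j : Fin 3 => (X j + C (p j) : MvPolynomial (Fin 3) ℂ))
      (monomial s c)) = c * (gg (p 0) (s 0) (n 0) * gg (p 1) (s 1) (n 1) * gg (p 2) (s 2) (n 2)) := by
  rw [aeval_monomial, Finsupp.prod_fintype _ _ (fun i => by simp)]
  have h1 : ∀ j : Fin 3, (X j + C (p j) : MvPolynomial (Fin 3) ℂ) ^ s j =
      Polynomial.aeval (X j : MvPolynomial (Fin 3) ℂ)
        ((Polynomial.X + Polynomial.C (p j)) ^ s j) := by
    intro j
    simp [algebraMap_eq]
  simp_rw [h1]
  rw [algebraMap_eq, coeff_C_mul, coeff_prod_aeval, Fin.prod_univ_three]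
  simp only [Polynomial.coeff_X_add_C_pow]
  rfl

/-- the form with coefficients `c` -/
noncomputable def form (d : ℕ) : (tri d → ℂ) →ₗ[ℂ] MvPolynomial (Fin 3) ℂ where
  toFun c := ∑ e : tri d, monomial (ex d e) (c e)
  map_add' c c' := by
    simp only [Pi.add_apply, map_add, Finset.sum_add_distrib]
  map_smul' a c := by
    simp only [Pi.smul_apply, RingHom.id_apply, Finset.smul_sum, smul_eq_mul]
    apply Finset.sum_congr rfl
    intro e _
    rw [smul_monomial]; rfl

lemma coeff_form (d : ℕ) (c : tri d → ℂ) (e : tri d) : coeff (ex d e) (form d c) = c e := by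
  classical
  change coeff (ex d e) (∑ e' : tri d, monomial (ex d e') (c e')) = c e
  rw [coeff_sum, Finset.sum_eq_single e]
  · rw [coeff_monomial, if_pos rfl]
  · intro e' _ hne
    rw [coeff_monomial, if_neg]
    intro h
    apply hne
    ext
    · rw [← ex_zero d e', ← ex_zero d e, h]
    · rw [← ex_one d e', ← ex_one d e, h]
  · intro h; exact absurd (Finset.mem_univ _) h

lemma form_injective (d : ℕ) : Function.Injective (form d) := by
  intro c c' h
  ext e
  rw [← coeff_form d c e, ← coeff_form d c' e, h]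

lemma form_homogeneous (d : ℕ) (c : tri d → ℂ) :
    form d c ∈ homogeneousSubmodule (Fin 3) ℂ d := by
  apply Submodule.sum_mem
  intro e _
  rw [mem_homogeneousSubmodule]
  apply isHomogeneous_monomial
  have := mem_tri.mp e.2
  rw [Finsupp.degree_eq_sum, Fin.sum_univ_three, ex_zero, ex_one, ex_two]
  omega

lemma form_surj (d : ℕ) {f : MvPolynomial (Fin 3) ℂ}
    (hf : f ∈ homogeneousSubmodule (Fin 3) ℂ d) :
    form d (fun e => coeff (ex d e) f) = f := by
  classical
  have hh := form_homogeneous d (fun e => coeff (ex d e) f)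
  rw [mem_homogeneousSubmodule] at hf hh
  ext n
  by_cases hn : n.degree = d
  · rw [Finsupp.degree_eq_sum, Fin.sum_univ_three] at hn
    have hmem : (n 0, n 1) ∈ tri d := by rw [mem_tri]; simp only; omega
    have hn' : n = ex d (n 0, n 1) := by
      ext j
      fin_cases j
      · simp [ex_zero]
      · simp [ex_one]
      · simp only [Fin.reduceFinMk, ex_two]; omega
    have := coeff_form d (fun e => coeff (ex d e) f) ⟨(n 0, n 1), hmem⟩
    simp only at this
    rw [← hn'] at this
    exact this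
  · rw [hf.coeff_eq_zero hn, hh.coeff_eq_zero hn]

/-- the conditions -/
def RR (d : ℕ) (p : Fin 3 → ℂ) (i j l : ℕ) (e : ℕ × ℕ) : ℂ :=
  gg (p 0) e.1 i * gg (p 1) e.2 j * gg (p 2) (d - e.1 - e.2) l

lemma coeff_shift_form (d : ℕ) (p : Fin 3 → ℂ) (n : Fin 3 →₀ ℕ) (c : tri d → ℂ) :
    coeff n (aeval (R := ℂ) (fun j : Fin 3 => (X j + C (p j) : MvPolynomial (Fin 3) ℂ))
      (form d c)) = ∑ e : tri d, c e * RR d p (n 0) (n 1) (n 2) e := by
  change coeff n (aeval (R := ℂ) _ (∑ e' : tri d, monomial (ex d e') (c e'))) = _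
  rw [map_sum, coeff_sum]
  apply Finset.sum_congr rfl
  intro e _
  rw [coeff_shift_monomial, ex_zero, ex_one, ex_two]
  rfl

/-- Euler's relation. -/
lemma euler (d : ℕ) (p : Fin 3 → ℂ) (c : tri d → ℂ) (i j l : ℕ) :
    p 2 * ((l : ℂ) + 1) * ∑ e : tri d, c e * RR d p i j (l + 1) e =
      ((d : ℂ) - (i + j + l)) * ∑ e : tri d, c e * RR d p i j l e
      - p 0 * ((i : ℂ) + 1) * ∑ e : tri d, c e * RR d p (i + 1) j l e
      - p 1 * ((j : ℂ) + 1) * ∑ e : tri d, c e * RR d p i (j + 1) l e := by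
  rw [Finset.mul_sum, Finset.mul_sum, Finset.mul_sum, Finset.mul_sum, ← Finset.sum_sub_distrib,
    ← Finset.sum_sub_distrib]
  apply Finset.sum_congr rfl
  intro e _
  unfold RR
  have h0 := gg_rel (p 0) e.1.1 i
  have h1 := gg_rel (p 1) e.1.2 j
  have h2 := gg_rel (p 2) (d - e.1.1 - e.1.2) l
  have hd : ((d - e.1.1 - e.1.2 : ℕ) : ℂ) = (d : ℂ) - e.1.1 - e.1.2 := by
    have := mem_tri.mp e.2
    rw [Nat.cast_sub (by omega), Nat.cast_sub (by omega)]
  rw [hd] at h2
  linear_combination (c e * gg (p 0) e.1.1 i * gg (p 1) e.1.2 j) * h2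
    + (c e * gg (p 1) e.1.2 j * gg (p 2) (d - e.1.1 - e.1.2) l) * h0
    + (c e * gg (p 0) e.1.1 i * gg (p 2) (d - e.1.1 - e.1.2) l) * h1

lemma all_conditions (d : ℕ) (p : Fin 3 → ℂ) (hp : p 2 ≠ 0) (c : tri d → ℂ) (m : ℕ)
    (h : ∀ i j, i + j < m → ∑ e : tri d, c e * RR d p i j 0 e = 0) :
    ∀ l i j, i + j + l < m → ∑ e : tri d, c e * RR d p i j l e = 0 := by
  intro l
  induction l with
  | zero => intro i j hij; exact h i j (by omega)
  | succ l ih =>
    intro i j hij
    have h1 := euler d p c i j l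
    rw [ih i j (by omega), ih (i + 1) j (by omega), ih i (j + 1) (by omega)] at h1
    simp only [mul_zero, sub_zero] at h1
    rcases mul_eq_zero.mp h1 with h2 | h2
    · exfalso
      rcases mul_eq_zero.mp h2 with h3 | h3
      · exact hp h3
      · have : ((l : ℂ) + 1) ≠ 0 := by exact_mod_cast Nat.succ_ne_zero l
        exact this h3
    · exact h2

/-- the coefficient vectors of the forms in the system -/
noncomputable def vsys (d h : ℕ) (m : Fin h → ℕ) (p : Fin h → Fin 3 → ℂ) :
    Submodule ℂ (tri d → ℂ) := (sys d h m p).comap (form d)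

lemma mem_vsys {d h : ℕ} {m : Fin h → ℕ} {p : Fin h → Fin 3 → ℂ} {c : tri d → ℂ} :
    c ∈ vsys d h m p ↔ ∀ k, ∀ n : Fin 3 →₀ ℕ, ∑ j, n j < m k →
      ∑ e : tri d, c e * RR d (p k) (n 0) (n 1) (n 2) e = 0 := by
  change (form d c ∈ homogeneousSubmodule (Fin 3) ℂ d ∧ _) ↔ _
  constructor
  · rintro ⟨_, h2⟩ k n hn
    rw [← coeff_shift_form]; exact h2 k n hn
  · intro h2
    refine ⟨form_homogeneous d c, fun k n hn => ?_⟩
    rw [coeff_shift_form]; exact h2 k n hn

lemma finrank_sys (d h : ℕ) (m : Fin h → ℕ) (p : Fin h → Fin 3 → ℂ) :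
    Module.finrank ℂ (sys d h m p) = Module.finrank ℂ (vsys d h m p) := by
  have h1 : sys d h m p = (vsys d h m p).map (form d) := by
    apply le_antisymm
    · intro f hf
      refine ⟨fun e => coeff (ex d e) f, ?_, form_surj d hf.1⟩
      change form d _ ∈ sys d h m p
      rw [form_surj d hf.1]; exact hf
    · rintro f ⟨c, hc, rfl⟩
      exact hc
  rw [h1]
  exact LinearEquiv.finrank_eq (Submodule.equivMapOfInjective _ (form_injective d) _).symm

/-- Kernel bound. -/
lemma finrank_add_le {T ι : Type} [Fintype T] [DecidableEq T] [Fintype ι] [DecidableEq ι]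
    (V : Submodule ℂ (T → ℂ)) (φ : ι → (T → ℂ)) (e : ι → T)
    (hdet : (Matrix.of fun i j => φ i (e j)).det ≠ 0)
    (hV : ∀ c ∈ V, ∀ i, ∑ t, c t * φ i t = 0) :
    Module.finrank ℂ V + Fintype.card ι ≤ Fintype.card T := by
  let A : (T → ℂ) →ₗ[ℂ] (ι → ℂ) :=
    { toFun := fun c i => ∑ t, c t * φ i t
      map_add' := by
        intro c c'; ext i
        simp only [Pi.add_apply, add_mul, Finset.sum_add_distrib]
      map_smul' := by
        intro a c; ext i
        simp only [Pi.smul_apply, smul_eq_mul, RingHom.id_apply, Finset.mul_sum, mul_assoc] }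
  have hsurj : Function.Surjective A := by
    intro b
    let M : Matrix ι ι ℂ := Matrix.of fun i j => φ i (e j)
    let x : ι → ℂ := M⁻¹.mulVec b
    refine ⟨∑ j, x j • Pi.single (e j) 1, ?_⟩
    ext i
    have h1 : A (∑ j, x j • Pi.single (e j) 1) i = ∑ j, x j * φ i (e j) := by
      change ∑ t, (∑ j, x j • (Pi.single (e j) 1 : T → ℂ)) t * φ i t = _
      simp only [Finset.sum_apply, Pi.smul_apply, smul_eq_mul, Finset.sum_mul]
      rw [Finset.sum_comm]
      apply Finset.sum_congr rfl
      intro j _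
      rw [Finset.sum_eq_single (e j)]
      · simp
      · intro t _ hne
        rw [Pi.single_eq_of_ne hne]; ring
      · intro h; exact absurd (Finset.mem_univ _) h
    rw [h1]
    have h2 : M.mulVec x = b := by
      simp only [x]
      rw [Matrix.mulVec_mulVec, Matrix.mul_nonsing_inv _ (by
        rw [isUnit_iff_ne_zero]; exact hdet), Matrix.one_mulVec]
    have h3 := congrFun h2 i
    rw [← h3]
    simp only [Matrix.mulVec, dotProduct, M, Matrix.of_apply]
    apply Finset.sum_congr rfl
    intro j _; ring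
  have hker : V ≤ LinearMap.ker A := by
    intro c hc
    rw [LinearMap.mem_ker]
    ext i
    exact hV c hc i
  have h1 := LinearMap.finrank_range_add_finrank_ker A
  rw [LinearMap.range_eq_top.mpr hsurj, finrank_top, Module.finrank_fintype_fun_eq_card,
    Module.finrank_fintype_fun_eq_card] at h1
  have h2 := Submodule.finrank_mono hker
  omega

end Pool.Agent.helper89.Segre
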