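import Mathlib
import Pool.Agent.helper89.Segre.Final

set_option autoImplicit false

/-!
# From special points to general points
-/

namespace Pool.Agent.helper89.Segre

open MvPolynomial

/-- choosing points indexed by `Fin h` -/
lemma exists_assignment {ι α : Type} [DecidableEq ι] [DecidableEq α] (m : ι → ℕ) (s : Finset ι)
    [Inhabited α] :
    ∀ L : Multiset (α × ℕ), L.map Prod.snd = s.val.map m →
      ∃ p : ι → α, (∀ x ∈ L, ∃ k ∈ s, p k = x.1 ∧ m k = x.2) ∧
        (∀ k ∈ s, (p k, m k) ∈ L) := by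
  induction s using Finset.induction_on with
  | empty =>
    intro L hL
    simp only [Finset.empty_val, Multiset.map_zero, Multiset.map_eq_zero] at hL
    subst hL
    exact ⟨fun _ => default, by simp, by simp⟩
  | insert k s hk ih =>
    intro L hL
    rw [Finset.insert_val_of_notMem hk, Multiset.map_cons] at hL
    obtain ⟨x, hx, hx2, hx3⟩ := (Multiset.map_eq_cons _ _ _ _).mpr hL
    obtain ⟨p, hp1, hp2⟩ := ih _ hx3
    refine ⟨Function.update p k x.1, ?_, ?_⟩
    · intro z hz
      rw [← Multiset.cons_erase hx] at hz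
      rcases Multiset.mem_cons.mp hz with rfl | hz
      · exact ⟨k, Finset.mem_insert_self _ _, Function.update_self _ _ _, hx2.symm⟩
      · obtain ⟨l, hl1, hl2, hl3⟩ := hp1 z hz
        refine ⟨l, Finset.mem_insert_of_mem hl1, ?_, hl3⟩
        rw [Function.update_of_ne (by rintro rfl; exact hk hl1)]
        exact hl2
    · intro l hl
      rcases Finset.mem_insert.mp hl with rfl | hl
      · rw [Function.update_self, ← hx2]; exact hx
      · have hlk : l ≠ k := fun h => hk (by rw [← h]; exact hl)
        rw [Function.update_of_ne hlk]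
        exact Multiset.mem_of_mem_erase (hp2 l hl)

/-- index type of the conditions -/
abbrev CIdx (h : ℕ) (m : Fin h → ℕ) : Type := Σ k : Fin h, idx (m k)

lemma card_CIdx (h : ℕ) (m : Fin h → ℕ) :
    Fintype.card (CIdx h m) = ∑ k, (m k + 1).choose 2 := by
  simp [CIdx, card_idx]

/-- generic version of the one-variable Taylor coefficient -/
noncomputable def ggp {h : ℕ} (v : Fin h × Fin 3) (a i : ℕ) : MvPolynomial (Fin h × Fin 3) ℂ :=
  X v ^ (a - i) * C ((a.choose i : ℕ) : ℂ)

lemma eval_ggp {h : ℕ} (P : Fin h × Fin 3 → ℂ) (v : Fin h × Fin 3) (a i : ℕ) :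
    eval P (ggp v a i) = gg (P v) a i := by
  simp [ggp, gg]

theorem generic_of_good {d h : ℕ} {m : Fin h → ℕ}
    (hg : Good ℂ (tri d) (Finset.univ.val.map m)
      (min (∑ k, (m k + 1).choose 2) ((d + 2).choose 2))) :
    ∃ Q : MvPolynomial (Fin h × Fin 3) ℂ, Q ≠ 0 ∧ ∀ p : Fin h → Fin 3 → ℂ,
      eval (fun ij : Fin h × Fin 3 => p ij.1 ij.2) Q ≠ 0 →
      Module.finrank ℂ (sys d h m p) = (d + 2).choose 2 - ∑ k, (m k + 1).choose 2 := by
  classical
  obtain ⟨L, hL1, hL2, ι, i1, i2, φ, e, hι, hφ, he, hdet⟩ := hg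
  obtain ⟨ps, hps1, hps2⟩ := exists_assignment m Finset.univ L hL1
  -- explicit coefficients
  have hspan : ∀ i, φ i ∈ Submodule.span ℂ (Set.range fun x : CIdx h m =>
      (fun e : ℕ × ℕ => pw (ps x.1) e * ((e.1.choose x.2.1.1 : ℕ) : ℂ) *
        ((e.2.choose x.2.1.2 : ℕ) : ℂ))) := by
    intro i
    refine Submodule.span_mono ?_ (hφ i)
    rintro ψ ⟨x, hx, ij, hij, rfl⟩
    obtain ⟨k, _, hk1, hk2⟩ := hps1 x hx
    refine ⟨⟨k, ⟨ij, by rw [hk2]; exact hij⟩⟩, ?_⟩
    simp only [hk1]
  have hcoef : ∀ i, ∃ u : CIdx h m → ℂ, ∀ ep : ℕ × ℕ, φ i ep = ∑ x, u x *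
      (pw (ps x.1) ep * ((ep.1.choose x.2.1.1 : ℕ) : ℂ) * ((ep.2.choose x.2.1.2 : ℕ) : ℂ)) := by
    intro i
    obtain ⟨u, hu⟩ := (Submodule.mem_span_range_iff_exists_fun ℂ).mp (hspan i)
    refine ⟨u, fun ep => ?_⟩
    rw [← hu, Finset.sum_apply]
    rfl
  choose u hu using hcoef
  -- the special points
  let p0 : Fin h → Fin 3 → ℂ := fun k => ![(ps k).1, (ps k).2, 1]
  have hRR : ∀ (k : Fin h) (i j : ℕ) (ep : ℕ × ℕ),
      pw (ps k) ep * ((ep.1.choose i : ℕ) : ℂ) * ((ep.2.choose j : ℕ) : ℂ) =
      ((ps k).1 ^ i * (ps k).2 ^ j) * RR d (p0 k) i j 0 ep := by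
    intro k i j ep
    unfold RR gg pw
    simp only [p0, Matrix.cons_val_zero, Matrix.cons_val_one, Matrix.cons_val, one_pow,
      Nat.choose_zero_right, Nat.cast_one, mul_one]
    rcases Nat.lt_or_ge ep.1 i with hlt | hge
    · rw [Nat.choose_eq_zero_of_lt hlt]; simp
    rcases Nat.lt_or_ge ep.2 j with hlt2 | hge2
    · rw [Nat.choose_eq_zero_of_lt hlt2]; simp
    · have e1 : (ps k).1 ^ ep.1 = (ps k).1 ^ i * (ps k).1 ^ (ep.1 - i) := by
        rw [← pow_add]; congr 1; omega
      have e2 : (ps k).2 ^ ep.2 = (ps k).2 ^ j * (ps k).2 ^ (ep.2 - j) := by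
        rw [← pow_add]; congr 1; omega
      rw [e1, e2]; ring
  -- coefficients for the polynomial matrix
  let w : ι → CIdx h m → ℂ := fun i x => u i x * ((ps x.1).1 ^ x.2.1.1 * (ps x.1).2 ^ x.2.1.2)
  let N : Matrix ι ι (MvPolynomial (Fin h × Fin 3) ℂ) := Matrix.of fun i j =>
    ∑ x : CIdx h m, C (w i x) * (ggp (x.1, 0) (e j).1 x.2.1.1 * ggp (x.1, 1) (e j).2 x.2.1.2 *
      ggp (x.1, 2) (d - (e j).1 - (e j).2) 0)
  have hNeval : ∀ p : Fin h → Fin 3 → ℂ,
      eval (fun ij : Fin h × Fin 3 => p ij.1 ij.2) N.det =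
        (Matrix.of fun i j => ∑ x : CIdx h m, w i x * RR d (p x.1) x.2.1.1 x.2.1.2 0 (e j)).det := by
    intro p
    rw [RingHom.map_det]
    congr 1
    ext i j
    simp only [N, RingHom.mapMatrix_apply, Matrix.map_apply, Matrix.of_apply, map_sum, map_mul,
      eval_C, eval_ggp, RR]
  have hN0 : eval (fun ij : Fin h × Fin 3 => p0 ij.1 ij.2) N.det ≠ 0 := by
    rw [hNeval]
    have hM : (Matrix.of fun i j => ∑ x : CIdx h m, w i x *
        RR d (p0 x.1) x.2.1.1 x.2.1.2 0 (e j) : Matrix ι ι ℂ) =
        Matrix.of fun i j => φ i (e j) := by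
      ext i j
      simp only [Matrix.of_apply]
      rw [hu i (e j)]
      apply Finset.sum_congr rfl
      intro x _
      rw [hRR]
      simp only [w]
      ring
    rw [hM]
    exact hdet
  have hNne : N.det ≠ 0 := by
    intro h0; rw [h0] at hN0; simp at hN0
  refine ⟨N.det * ∏ k : Fin h, X (k, 2), ?_, ?_⟩
  · apply mul_ne_zero hNne
    rw [Finset.prod_ne_zero_iff]
    intro k _; exact X_ne_zero _
  · intro p hp
    rw [map_mul, map_prod] at hp
    have hp1 := left_ne_zero_of_mul hp
    have hp2 := right_ne_zero_of_mul hp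
    rw [Finset.prod_ne_zero_iff] at hp2
    simp only [eval_X] at hp2
    rw [hNeval] at hp1
    rw [finrank_sys]
    have hcardT : Fintype.card (tri d) = (d + 2).choose 2 := by
      rw [Fintype.card_coe, card_tri]
    -- upper bound
    have hupper : Module.finrank ℂ (vsys d h m p) +
        min (∑ k, (m k + 1).choose 2) ((d + 2).choose 2) ≤ (d + 2).choose 2 := by
      have := finrank_add_le (T := tri d) (ι := ι) (vsys d h m p)
        (fun i t => ∑ x : CIdx h m, w i x * RR d (p x.1) x.2.1.1 x.2.1.2 0 t)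
        (fun i => ⟨e i, he i⟩) hp1 (by
          intro c hc i
          rw [mem_vsys] at hc
          have h1 : ∑ t : tri d, c t * ∑ x : CIdx h m, w i x *
              RR d (p x.1) x.2.1.1 x.2.1.2 0 t = ∑ x : CIdx h m, w i x * ∑ t : tri d, c t *
              RR d (p x.1) x.2.1.1 x.2.1.2 0 t := by
            simp only [Finset.mul_sum]
            rw [Finset.sum_comm]
            apply Finset.sum_congr rfl
            intro x _
            apply Finset.sum_congr rfl
            intro t _; ring
          rw [h1]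
          apply Finset.sum_eq_zero
          intro x _
          have hx := mem_idx.mp x.2.2
          have h2 := hc x.1 (Finsupp.single 0 x.2.1.1 + Finsupp.single 1 x.2.1.2)
            (by
              rw [Fin.sum_univ_three]
              simpa using hx)
          simp only [Finsupp.coe_add, Pi.add_apply, Finsupp.single_eq_same,
            Finsupp.single_apply, Fin.isValue, one_ne_zero, zero_ne_one, if_false, add_zero,
            zero_add, Fin.reduceEq] at h2
          rw [h2, mul_zero])
      rw [hcardT, hι] at this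
      exact this
    -- lower bound
    have hlower : (d + 2).choose 2 ≤ Module.finrank ℂ (vsys d h m p) +
        ∑ k, (m k + 1).choose 2 := by
      let A : (tri d → ℂ) →ₗ[ℂ] (CIdx h m → ℂ) :=
        { toFun := fun c x => ∑ t : tri d, c t * RR d (p x.1) x.2.1.1 x.2.1.2 0 t
          map_add' := by
            intro c c'; ext i
            simp only [Pi.add_apply, add_mul, Finset.sum_add_distrib]
          map_smul' := by
            intro a c; ext i
            simp only [Pi.smul_apply, smul_eq_mul, RingHom.id_apply, Finset.mul_sum, mul_assoc] }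
      have hker : LinearMap.ker A ≤ vsys d h m p := by
        intro c hc
        rw [LinearMap.mem_ker] at hc
        rw [mem_vsys]
        intro k n hn
        rw [Fin.sum_univ_three] at hn
        apply all_conditions d (p k) (hp2 k (Finset.mem_univ _)) c (m k) _ _ _ _ hn
        intro i j hij
        exact congrFun hc ⟨k, ⟨(i, j), mem_idx.mpr hij⟩⟩
      have h1 := LinearMap.finrank_range_add_finrank_ker A
      rw [Module.finrank_fintype_fun_eq_card, hcardT] at h1
      have h2 := Submodule.finrank_mono hker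
      have h3 : Module.finrank ℂ (LinearMap.range A) ≤ ∑ k, (m k + 1).choose 2 := by
        refine (Submodule.finrank_le _).trans ?_
        rw [Module.finrank_fintype_fun_eq_card, card_CIdx]
      omega
    omega

end Pool.Agent.helper89.Segre
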