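import Mathlib
import Pool.Agent.helper89.Segre.Generic

set_option autoImplicit false

/-!
# The two theorems on non-special linear systems
-/

namespace Pool.Agent.helper89.Segre

open MvPolynomial

lemma slt_eq {h : ℕ} (m : Fin h → ℕ) (ν : ℕ) :
    Slt (Finset.univ.val.map m) ν = ∑ j with m j < ν, (m j + 1).choose 2 := by
  unfold Slt
  rw [Multiset.filter_map, Multiset.map_map]
  rfl

lemma sge_eq {h : ℕ} (m : Fin h → ℕ) (ν : ℕ) :
    Sge (Finset.univ.val.map m) ν = ∑ j with ν ≤ m j, (m j + 1).choose 2 := by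
  unfold Sge
  rw [Multiset.filter_map, Multiset.map_map]
  rfl

lemma sumkk_eq {h : ℕ} (m : Fin h → ℕ) :
    ((Finset.univ.val.map m).map kk).sum = ∑ j, (m j + 1).choose 2 := by
  rw [Multiset.map_map]
  rfl

lemma exists_cons {S : Multiset ℕ} {n : ℕ} (h : Multiset.card S = n + 1) :
    ∃ a S', S = a ::ₘ S' ∧ Multiset.card S' = n := by
  have hne : S ≠ 0 := by rintro rfl; simp at h
  obtain ⟨a, ha⟩ := Multiset.exists_mem_of_ne_zero hne
  obtain ⟨S', rfl⟩ := Multiset.exists_cons_of_mem ha
  refine ⟨a, S', rfl, ?_⟩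
  rw [Multiset.card_cons] at h; omega

theorem fatTail (d h : ℕ) (m : Fin h → ℕ)
    (H : ∀ i, 2 ≤ m i →
      (2 * m i).choose 2 ≤ ∑ j with m j < m i, (m j + 1).choose 2 ∨
      ∑ j with m i ≤ m j, (m j + 1).choose 2 + 2 * m i * (m i - 1) < (d + 2).choose 2) :
    ∃ Q : MvPolynomial (Fin h × Fin 3) ℂ, Q ≠ 0 ∧ ∀ p : Fin h → Fin 3 → ℂ,
      eval (fun ij : Fin h × Fin 3 => p ij.1 ij.2) Q ≠ 0 →
      Module.finrank ℂ (sys d h m p) = (d + 2).choose 2 - ∑ k, (m k + 1).choose 2 := by
  apply generic_of_good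
  have hcond : Cond (tri d).card (Finset.univ.val.map m) := by
    intro ν hν h2
    obtain ⟨i, _, rfl⟩ := Multiset.mem_map.mp hν
    rw [slt_eq, sge_eq, card_tri]
    exact H i h2
  have := good_main (K := ℂ) d _ (∑ i, m i) (fun b => d + 1 - b) (Finset.univ.val.map m) le_rfl
    (Inv.init d _) (by
      intro x hx
      obtain ⟨i, _, rfl⟩ := Multiset.mem_map.mp hx
      exact Finset.single_le_sum (f := m) (fun _ _ => Nat.zero_le _) (Finset.mem_univ i)) hcond
  rw [sumkk_eq] at this
  change Good ℂ (tri d) _ (min _ (tri d).card) at this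
  rwa [card_tri] at this

theorem awayFromZero (d h M : ℕ) (m : Fin h → ℕ) (hM : ∀ i, m i ≤ M)
    (H : ∑ k, (m k + 1).choose 2 + 2 * M * (M - 1) < (d + 2).choose 2 ∨
      (d + 2).choose 2 + 5 * (M + 1).choose 2 ≤ ∑ k, (m k + 1).choose 2) :
    ∃ Q : MvPolynomial (Fin h × Fin 3) ℂ, Q ≠ 0 ∧ ∀ p : Fin h → Fin 3 → ℂ,
      eval (fun ij : Fin h × Fin 3 => p ij.1 ij.2) Q ≠ 0 →
      Module.finrank ℂ (sys d h m p) = (d + 2).choose 2 - ∑ k, (m k + 1).choose 2 := by
  classical
  rcases H with H | H
  · apply fatTail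
    intro i hi
    right
    have h1 : ∑ j with m i ≤ m j, (m j + 1).choose 2 ≤ ∑ k, (m k + 1).choose 2 :=
      Finset.sum_le_sum_of_subset (Finset.filter_subset _ _)
    have h2 : 2 * m i * (m i - 1) ≤ 2 * M * (M - 1) :=
      Nat.mul_le_mul (Nat.mul_le_mul_left _ (hM i)) (Nat.sub_le_sub_right (hM i) 1)
    omega
  · apply generic_of_good
    rw [Nat.min_eq_right (by omega)]
    -- take out the five largest multiplicities
    have hpick : ∀ (n : ℕ) (L : Multiset ℕ), n ≤ Multiset.card L → (∀ x ∈ L, x ≤ M) →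
        ∃ S L' : Multiset ℕ, L = S + L' ∧ Multiset.card S = n ∧
          (∀ a ∈ S, ∀ x ∈ L', x ≤ a) ∧ (∀ a ∈ S, a ≤ M) := by
      intro n
      induction n with
      | zero =>
        intro L _ _
        exact ⟨0, L, by simp, by simp, by simp, by simp⟩
      | succ n ih =>
        intro L hn hL
        have hne : L.toFinset.Nonempty := by
          rw [Finset.nonempty_iff_ne_empty]; intro h
          rw [Multiset.toFinset_eq_empty] at h
          subst h; simp at hn
        set μ := L.toFinset.max' hne with hμ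
        have hμL : μ ∈ L := Multiset.mem_toFinset.mp (Finset.max'_mem _ _)
        have hμmax : ∀ x ∈ L, x ≤ μ := fun x hx =>
          Finset.le_max' _ _ (Multiset.mem_toFinset.mpr hx)
        obtain ⟨L1, hL1⟩ := Multiset.exists_cons_of_mem hμL
        obtain ⟨S, L', h1, h2, h3, h4⟩ := ih L1 (by rw [hL1, Multiset.card_cons] at hn; omega)
          (fun x hx => hL x (by rw [hL1]; exact Multiset.mem_cons_of_mem hx))
        refine ⟨μ ::ₘ S, L', ?_, ?_, ?_, ?_⟩
        · rw [hL1, h1, Multiset.cons_add]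
        · rw [Multiset.card_cons, h2]
        · intro a ha x hx
          rcases Multiset.mem_cons.mp ha with rfl | ha
          · have hxL : x ∈ L := by
              rw [hL1, h1]
              exact Multiset.mem_cons_of_mem (Multiset.mem_add.mpr (Or.inr hx))
            exact hμmax x hxL
          · exact h3 a ha x hx
        · intro a ha
          rcases Multiset.mem_cons.mp ha with rfl | ha
          · exact hL _ hμL
          · exact h4 a ha
    have hall : ∀ x ∈ (Finset.univ.val.map m : Multiset ℕ), x ≤ M := by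
      intro x hx
      obtain ⟨i, _, rfl⟩ := Multiset.mem_map.mp hx
      exact hM i
    have hcard : 5 ≤ Multiset.card (Finset.univ.val.map m : Multiset ℕ) := by
      by_contra hcon
      have hcard' : Multiset.card (Finset.univ.val.map m : Multiset ℕ) = h := by simp
      have h1 : ∑ k, (m k + 1).choose 2 ≤ h * (M + 1).choose 2 := by
        calc ∑ k, (m k + 1).choose 2 ≤ ∑ _k : Fin h, (M + 1).choose 2 :=
              Finset.sum_le_sum fun k _ => kk_mono (hM k)
          _ = h * (M + 1).choose 2 := by simp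
      have h2 : h * (M + 1).choose 2 ≤ 4 * (M + 1).choose 2 := Nat.mul_le_mul_right _ (by omega)
      have h3 : 0 < (d + 2).choose 2 := Nat.choose_pos (by omega)
      omega
    obtain ⟨S, L', hSL, hS5, hSx, hSM⟩ := hpick 5 _ hcard hall
    have hsum : (L'.map kk).sum + (S.map kk).sum = ∑ k, (m k + 1).choose 2 := by
      rw [← sumkk_eq, hSL, Multiset.map_add, Multiset.sum_add, add_comm]
    have hSsum : (S.map kk).sum ≤ 5 * (M + 1).choose 2 := by
      have := Multiset.sum_le_card_nsmul (S.map kk) (kk M) (by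
        intro x hx
        obtain ⟨a, ha, rfl⟩ := Multiset.mem_map.mp hx
        exact kk_mono (hSM a ha))
      rw [Multiset.card_map, hS5, smul_eq_mul] at this
      exact this
    obtain ⟨a1, S1, rfl, hS4⟩ := exists_cons hS5
    obtain ⟨a2, S2, rfl, hS3⟩ := exists_cons hS4
    obtain ⟨a3, S3, rfl, hS2⟩ := exists_cons hS3
    obtain ⟨a4, S4, rfl, hS1⟩ := exists_cons hS2
    obtain ⟨a5, rfl⟩ := Multiset.card_eq_one.mp hS1
    have := good_empty (K := ℂ) d a1 a2 a3 a4 a5 _ M (fun b => d + 1 - b) L' le_rfl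
      (Inv.init d _) (by
        intro x hx
        exact hall x (by rw [hSL]; exact Multiset.mem_add.mpr (Or.inr hx)))
      (by
        intro x hx
        refine ⟨hSx a1 (by simp) x hx, hSx a2 (by simp) x hx, hSx a3 (by simp) x hx,
          hSx a4 (by simp) x hx, hSx a5 (by simp) x hx⟩)
      (by
        change (tri d).card ≤ _
        rw [card_tri]
        omega)
    change Good ℂ (tri d) _ (tri d).card at this
    rw [card_tri] at this
    rw [hSL]
    exact this

end Pool.Agent.helper89.Segre
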